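import Pool.Agent.Q73.LS.SelfDual

/-!
# Chow-Kunneth decompositions of a variety and of its covers
-/

set_option autoImplicit false

open CategoryTheory AlgebraicGeometry

universe u v w

namespace Pool.Agent.Q73.LS

open Pool.Agent.H914 Pool.Agent.H914.VarClass Pool.Agent.H914.VarClass.Obj Pool.Agent.W492.BB
  Pool.Agent.W550.Corr Pool.Agent.TH133 Pool.Agent.Y107

set_option linter.unusedSectionVars false

variable {k : Type u} [Field k] {𝒱 : VarClass k}

section chow

variable {C : TheoryData.{u, v, 0} 𝒱 ℚ} [hC : IsChowProj C] {X Y Z : 𝒱.Obj}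

include hC

/-- `c⁻¹ f_* z f^*` -/
noncomputable def dn (f : X ⟶ Y) (c : ℚ) (z : Cor C X) : C.A (Y.prod Y) :=
  c⁻¹ • (C.comp (C.comp (C.cograph f) (z : C.A (X.prod X))) (C.graph f))

/-- `c⁻¹ f^* f_*` -/
noncomputable def ee (f : X ⟶ Y) (c : ℚ) : Cor C X := coverPart C f c

lemma corPow_eq (Γ : Cor C X) (n : ℕ) : (corPow C (X := X) Γ n : Cor C X) = Γ ^ n := by
  induction n with
  | zero => rw [pow_zero]; rfl
  | succ n ih =>
    rw [pow_succ', cor_mul, ← ih]
    rfl

lemma nilpotent_iff (Γ : Cor C X) : (∃ n, corPow C (X := X) Γ n = 0) ↔ IsNilpotent Γ := by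
  constructor
  · rintro ⟨n, hn⟩
    exact ⟨n, by rw [← corPow_eq]; exact hn⟩
  · rintro ⟨n, hn⟩
    refine ⟨n, ?_⟩
    have h := corPow_eq Γ n
    rw [hn] at h
    exact h

lemma dn_dn (f : X ⟶ Y) {c : ℚ} (z z' : Cor C X) :
    (C.comp (dn f c z) (dn f c z')) = dn f c (z' * ee f c * z) := by
  have h1 : (z' * ee f c * z : Cor C X) = (C.comp (C.comp (z : C.A (X.prod X)) (ee f c : C.A (X.prod X))) (z' : C.A (X.prod X))) := by
    rw [cor_mul, cor_mul, comp_assoc C]
  rw [h1, dn, dn, dn, ee, coverPart]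
  simp only [comp_smul', smul_comp', smul_smul, comp_assoc C]

lemma dn_sum {ι : Type*} (s : Finset ι) (f : X ⟶ Y) (c : ℚ) (z : ι → Cor C X) :
    dn f c (∑ i ∈ s, z i) = ∑ i ∈ s, dn f c (z i) := by
  rw [dn]
  have h1 : (C.comp (C.cograph f) (∑ i ∈ s, z i : Cor C X)) = ∑ i ∈ s, (C.comp (C.cograph f) (z i : C.A (X.prod X))) :=
    comp_sum C s _ _
  rw [h1, sum_comp, Finset.smul_sum]
  rfl

open Classical in
/-- completing a family of projectors by the middle one -/
noncomputable def fill (q : ℕ → C.A (Y.prod Y)) (i : ℕ) : C.A (Y.prod Y) :=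
  if i = Y.dim then dg C Y - ∑ j ∈ (Finset.range (2 * Y.dim + 1)).erase Y.dim, q j
  else if i ≤ 2 * Y.dim then q i else 0

lemma fill_of (q : ℕ → C.A (Y.prod Y)) {i : ℕ} (hi : i ≤ 2 * Y.dim)
    (hn : i ≠ Y.dim) : fill q i = q i := by
  rw [fill, if_neg hn, if_pos hi]

lemma fill_mid (q : ℕ → C.A (Y.prod Y)) : fill q Y.dim =
    dg C Y - ∑ j ∈ (Finset.range (2 * Y.dim + 1)).erase Y.dim, q j := by
  rw [fill, if_pos rfl]

lemma fill_out (q : ℕ → C.A (Y.prod Y)) {i : ℕ} (hi : 2 * Y.dim < i) :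
    fill q i = 0 := by
  rw [fill, if_neg (by omega), if_neg (by omega)]

lemma fill_orth {q : ℕ → C.A (Y.prod Y)}
    (hq : ∀ i j, i ≤ 2 * Y.dim → i ≠ Y.dim → j ≤ 2 * Y.dim → j ≠ Y.dim →
      (C.comp (q i) (q j)) = if i = j then q i else 0) (i j : ℕ) :
    (C.comp (fill q i) (fill q j)) = if i = j then fill q i else 0 := by
  have h1 : ∀ i, i ≤ 2 * Y.dim → i ≠ Y.dim →
      (C.comp (q i) (∑ j ∈ (Finset.range (2 * Y.dim + 1)).erase Y.dim, q j)) = q i := by
    intro i hi hin
    rw [comp_sum, Finset.sum_congr rfl fun j hj => hq i j hi hin (mem_er.1 hj).1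
      (mem_er.1 hj).2, Finset.sum_ite_eq, if_pos (mem_er.2 ⟨hi, hin⟩)]
  have h2 : ∀ i, i ≤ 2 * Y.dim → i ≠ Y.dim →
      (C.comp (∑ j ∈ (Finset.range (2 * Y.dim + 1)).erase Y.dim, q j) (q i)) = q i := by
    intro i hi hin
    rw [sum_comp]
    have h1 : ∀ j ∈ (Finset.range (2 * Y.dim + 1)).erase Y.dim, (C.comp (q j) (q i)) =
        if i = j then q i else 0 := by
      intro j hj
      rw [hq j i (mem_er.1 hj).1 (mem_er.1 hj).2 hi hin]
      by_cases e : i = j
      · subst e; simp
      · rw [if_neg e, if_neg (Ne.symm e)]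
    rw [Finset.sum_congr rfl h1, Finset.sum_ite_eq, if_pos (mem_er.2 ⟨hi, hin⟩)]
  by_cases hi : i ≤ 2 * Y.dim
  swap
  · rw [fill_out q (by omega), zero_comp]; simp
  by_cases hj : j ≤ 2 * Y.dim
  swap
  · rw [fill_out q (i := j) (by omega), comp_zero, if_neg (by omega)]
  by_cases hin : i = Y.dim
  · subst hin
    by_cases hjn : j = Y.dim
    · subst hjn
      rw [if_pos rfl, fill_mid, sub_comp, comp_sub, comp_dg, dg_comp, sum_comp]
      rw [Finset.sum_congr rfl (fun j hj => show (C.comp (q j) (dg C Y - _)) = 0 by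
        rw [comp_sub, comp_dg, h1 j (mem_er.1 hj).1 (mem_er.1 hj).2, sub_self])]
      rw [Finset.sum_const_zero, sub_zero]
    · rw [if_neg (Ne.symm hjn), fill_mid, fill_of q hj hjn, sub_comp, dg_comp,
        h2 j hj hjn, sub_self]
  · by_cases hjn : j = Y.dim
    · subst hjn
      rw [if_neg hin, fill_mid, fill_of q hi hin, comp_sub, comp_dg, h1 i hi hin,
        sub_self]
    · rw [fill_of q hi hin, fill_of q hj hjn, hq i j hi hin hj hjn]

variable {f : X ⟶ Y} {c : ℚ}

lemma pp_cover (hf : C.push f 1 = c • 1) : pp C f = c • dg C Y := by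
  rw [pp_eq, hf, TheoryData.mulCorr, map_smul]; rfl

lemma ee_graph (hc : c ≠ 0) (hf : C.push f 1 = c • 1) :
    (C.comp (ee f c : C.A (X.prod X)) (C.graph f)) = C.graph f := by
  have h1 : (C.comp (C.cograph f) (C.graph f)) = c • dg C Y := pp_cover hf
  rw [ee, coverPart, smul_comp', comp_assoc C, h1, comp_smul', comp_dg, smul_smul,
    inv_mul_cancel₀ hc, one_smul]

lemma cograph_ee (hc : c ≠ 0) (hf : C.push f 1 = c • 1) :
    (C.comp (C.cograph f) (ee f c : C.A (X.prod X))) = C.cograph f := by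
  have h1 : (C.comp (C.cograph f) (C.graph f)) = c • dg C Y := pp_cover hf
  rw [ee, coverPart, comp_smul', ← comp_assoc C, h1, smul_comp', dg_comp, smul_smul,
    inv_mul_cancel₀ hc, one_smul]

lemma ee_mem (hd : Y.dim = X.dim) (f : X ⟶ Y) (c : ℚ) : ee f c ∈ cor0 C X := by
  have h1 : C.graph f ∈ C.gr (X.prod Y) ((X.dim : ℤ) + 0) := by
    have h := graph_mem' (C := C) f
    rw [hd] at h
    rw [add_zero]; exact h
  have h2 : C.cograph f ∈ C.gr (Y.prod X) ((Y.dim : ℤ) + 0) := by
    rw [add_zero]; exact cograph_mem f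
  have h3 := comp_mem C h1 h2
  rw [add_zero, add_zero] at h3
  exact Submodule.smul_mem _ _ h3

lemma dn_eq (f : X ⟶ Y) (c : ℚ) (z : Cor C X) :
    dn f c z = (C.comp (C.comp (C.comp (C.cograph f) (z : C.A (X.prod X))) (C.graph f)) (c⁻¹ • dg C Y)) := by
  rw [dn, comp_smul', comp_dg]

lemma dn_mem (hd : Y.dim = X.dim) (f : X ⟶ Y) (c : ℚ) {z : Cor C X} (hz : z ∈ cor0 C X) :
    dn f c z ∈ C.gr (Y.prod Y) Y.dim := by
  have h1 : C.graph f ∈ C.gr (X.prod Y) ((X.dim : ℤ) + 0) := by
    have h := graph_mem' (C := C) f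
    rw [hd] at h
    rw [add_zero]; exact h
  have h2 : C.cograph f ∈ C.gr (Y.prod X) ((Y.dim : ℤ) + 0) := by
    rw [add_zero]; exact cograph_mem f
  have h0 : (z : C.A (X.prod X)) ∈ C.gr (X.prod X) ((X.dim : ℤ) + 0) := by
    rw [add_zero]; exact hz
  have h3 := comp_mem C (comp_mem C h2 h0) h1
  rw [add_zero, add_zero, add_zero] at h3
  exact Submodule.smul_mem _ _ h3

end chow

section weil

variable {C : TheoryData.{u, v, 0} 𝒱 ℚ} [hC : IsChowProj C] {K : Type w} [Field K]
  {H : WeilTheoryData.{u, v, w} C K} [hH : IsWeilProj H] {X Y : 𝒱.Obj}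

include hC hH

/-- completing a family of projectors to a Chow-Kunneth decomposition -/
theorem isCK_fill {q : ℕ → C.A (Y.prod Y)}
    (hdeg : ∀ i, i ≤ 2 * Y.dim → i ≠ Y.dim → q i ∈ C.gr (Y.prod Y) Y.dim)
    (hmul : ∀ i j, i ≤ 2 * Y.dim → i ≠ Y.dim → j ≤ 2 * Y.dim → j ≠ Y.dim →
      (C.comp (q i) (q j)) = if i = j then q i else 0)
    (hq : ∀ (i : ℕ) (m : ℤ) (a : H.A Y), i ≤ 2 * Y.dim → i ≠ Y.dim → a ∈ H.gr Y m →
      H.act (H.cl (q i)) a = if m = i then a else 0) :
    IsCK H Y (fill q) := by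
  have horth := fill_orth hmul
  have hcl : ∀ (s : Finset ℕ) (a : H.A Y), H.act (H.cl (∑ j ∈ s, q j)) a =
      ∑ j ∈ s, H.act (H.cl (q j)) a := by
    intro s a
    rw [map_sum, act_sum]
  have hmid : ∀ (m : ℤ) (a : H.A Y), a ∈ H.gr Y m →
      H.act (H.cl (fill q Y.dim)) a = if m = Y.dim then a else 0 := by
    intro m a ha
    rw [fill_mid, map_sub, H.act_sub, actH_dg, hcl,
      Finset.sum_congr rfl fun j hj => hq j m a (mem_er.1 hj).1 (mem_er.1 hj).2 ha]
    by_cases hm : m = Y.dim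
    · rw [if_pos hm, Finset.sum_eq_zero, sub_zero]
      intro j hj
      rw [if_neg]
      intro e
      exact (mem_er.1 hj).2 (by omega)
    · rw [if_neg hm]
      by_cases ha0 : a = 0
      · rw [ha0]; simp
      have h0 := nonneg_of_mem H ha ha0
      have h2 : m ≤ 2 * Y.dim := by
        by_contra h3
        rw [gr_top (H := H) (by omega)] at ha
        exact ha0 ((Submodule.mem_bot _).1 ha)
      obtain ⟨m', rfl⟩ := Int.eq_ofNat_of_zero_le h0
      rw [Finset.sum_eq_single m']
      · rw [if_pos rfl, sub_self]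
      · intro j _ hj
        rw [if_neg (by intro e; exact hj (by exact_mod_cast e.symm))]
      · intro hj
        exact absurd (mem_er.2 ⟨by exact_mod_cast h2, by exact_mod_cast hm⟩) hj
  refine ⟨?_, fun i hi => fill_out q hi, ?_, ?_, ?_, ?_, ?_⟩
  · intro i
    by_cases hi : i ≤ 2 * Y.dim
    swap
    · rw [fill_out q (by omega)]; exact Submodule.zero_mem _
    by_cases hin : i = Y.dim
    · subst hin
      rw [fill_mid]
      exact Submodule.sub_mem _ (dg_mem C Y) (Submodule.sum_mem _ fun j hj =>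
        hdeg j (mem_er.1 hj).1 (mem_er.1 hj).2)
    · rw [fill_of q hi hin]
      exact hdeg i hi hin
  · intro i
    rw [horth i i, if_pos rfl]
  · intro i j hij
    rw [horth i j, if_neg hij]
  · have hmem : Y.dim ∈ Finset.range (2 * Y.dim + 1) := Finset.mem_range.2 (by omega)
    rw [← Finset.add_sum_erase _ _ hmem, fill_mid, Finset.sum_congr rfl fun j hj =>
      fill_of q (mem_er.1 hj).1 (mem_er.1 hj).2, sub_add_cancel]
  · intro i a ha
    by_cases hi : i ≤ 2 * Y.dim
    swap
    · rw [TheoryData.Deg, gr_top (H := H) (by omega)] at ha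
      rw [(Submodule.mem_bot _).1 ha]
      exact H.act_map_zero _
    by_cases hin : i = Y.dim
    · subst hin
      rw [hmid _ a ha, if_pos rfl]
    · rw [fill_of q hi hin, hq i i a hi hin ha, if_pos rfl]
  · intro i m a hm ha
    by_cases hi : i ≤ 2 * Y.dim
    swap
    · rw [fill_out q (by omega)]
      exact actH_zero H a
    by_cases hin : i = Y.dim
    · subst hin
      rw [hmid _ a ha, if_neg hm]
    · rw [fill_of q hi hin, hq i m a hi hin ha, if_neg hm]

variable {f : X ⟶ Y} {c : ℚ}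

lemma actH_graph (f : X ⟶ Y) (a : H.A X) : H.act (H.cl (C.graph f)) a = H.push f a := by
  have h1 : H.cl (C.graph f) = H.graph f := by
    rw [TheoryData.graph, TheoryData.graph, H.cl_push, map_one]
  rw [h1, H.act_graph]

lemma actH_cograph (f : X ⟶ Y) (b : H.A Y) : H.act (H.cl (C.cograph f)) b = H.pull f b := by
  have h2 : H.cl (C.cograph f) = H.cograph f := by
    rw [TheoryData.cograph, TheoryData.cograph, H.cl_push, map_one]
  rw [h2, H.act_cograph]

/-- `c⁻¹ f^* f_*` is the identity on the cohomology outside the middle degree -/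
lemma ee_act (hc : c ≠ 0) (hd : Y.dim = X.dim) (hf : C.push f 1 = c • 1) (hO : OntoBelow H f)
    {m : ℤ} (hm : m ≠ X.dim) {a : H.A X} (ha : a ∈ H.gr X m) :
    actH C X H (ee f c) a = a := by
  rw [actH_apply]
  by_cases ha0 : a = 0
  · rw [ha0]; exact H.act_map_zero _
  obtain ⟨m', rfl⟩ := Int.eq_ofNat_of_zero_le (nonneg_of_mem H ha ha0)
  have hm' : m' ≠ X.dim := by exact_mod_cast hm
  rcases lt_or_gt_of_ne hm' with h1 | h1
  · obtain ⟨b, hb, rfl⟩ := hO m' h1 a ha
    have h2 := actH_comp (H := H) (C.cograph f) (ee f c : C.A (X.prod X)) b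
    rw [cograph_ee hc hf, actH_cograph] at h2
    exact h2.symm
  · have h2 := actH_comp (H := H) (ee f c : C.A (X.prod X)) (C.graph f) a
    rw [ee_graph hc hf, actH_graph, actH_graph] at h2
    have hmem : H.act (H.cl (ee f c : C.A (X.prod X))) a ∈ H.gr X m' := by
      have h3 : H.cl (ee f c : C.A (X.prod X)) ∈ H.gr (X.prod X) (2 * (X.dim : ℤ)) :=
        H.cl_mem (ee_mem hd f c)
      have h4 := H.push_mem (snd X X) (H.mul_mem h3 (H.pull_mem (fst X X) ha))
      have e : 2 * (X.dim : ℤ) + m' + 2 * ((X.dim : ℤ) - ((X.prod X).dim : ℤ)) = m' := by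
        rw [dim_prod]; push_cast; ring
      rw [e] at h4
      exact h4
    have h5 : H.act (H.cl (ee f c : C.A (X.prod X))) a - a = 0 := by
      apply push_inj (H := H) hO h1 (Submodule.sub_mem _ hmem ha)
      rw [map_sub, ← h2, sub_self]
    exact sub_eq_zero.1 h5

lemma dn_act_zero (f : X ⟶ Y) (c : ℚ) (z : Cor C X) {b : H.A Y}
    (h : actH C X H z (H.pull f b) = 0) : H.act (H.cl (dn f c z)) b = 0 := by
  rw [dn_eq, actH_comp, actH_comp, actH_comp, actH_cograph]
  rw [actH_apply] at h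
  rw [h]
  have h1 : ∀ (Z W : 𝒱.Obj) (Γ : H.A (Z.prod W)), H.act Γ (0 : H.A Z) = 0 :=
    fun Z W Γ => H.act_map_zero Γ
  rw [h1, h1]

lemma dn_act_self (hc : c ≠ 0) (hf : C.push f 1 = c • 1) (z : Cor C X) {b : H.A Y}
    (h : actH C X H z (H.pull f b) = H.pull f b) : H.act (H.cl (dn f c z)) b = b := by
  rw [dn_eq, actH_comp, actH_comp, actH_comp, actH_cograph]
  rw [actH_apply] at h
  rw [h, actH_graph, ← actH_pp (C := C), ← actH_comp, pp_cover hf, comp_smul',
    smul_comp', comp_dg, smul_smul, inv_mul_cancel₀ hc, one_smul, actH_dg]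

/-- from `X` to `Y` -/
theorem down_of_nilpotent (hc : c ≠ 0) (hd : Y.dim = X.dim) (hf : C.push f 1 = c • 1)
    (hO : OntoBelow H f) {p : ℕ → C.A (X.prod X)} (hp : IsCK H X p)
    (hN : ∃ n, corPow C (C.comp (C.comp (outer C p) (dg C X - coverPart C f c)) (outer C p)) n = 0) :
    ∃ π, IsCK H Y π := by
  classical
  let pi : ℕ → Cor C X := p
  let P : Cor C X := outer C p
  let E : Cor C X := ee f c
  let ν : Cor C X := P * (1 - E) * P
  have hpi : ∀ i j, pi i * pi j = if i = j then pi i else 0 := by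
    intro i j
    rw [cor_mul]
    by_cases h : i = j
    · subst h
      rw [if_pos rfl]
      exact hp.idem i
    · rw [if_neg h]
      exact hp.orth j i (Ne.symm h)
  have hPsum : P = ∑ i ∈ (Finset.range (2 * X.dim + 1)).erase X.dim, pi i := rfl
  have hpP : ∀ i, i ≤ 2 * X.dim → i ≠ X.dim → pi i * P = pi i := by
    intro i h1 h2
    rw [hPsum, Finset.mul_sum, Finset.sum_congr rfl fun j _ => hpi i j, Finset.sum_ite_eq,
      if_pos (mem_er.2 ⟨h1, h2⟩)]
  have hPp : ∀ i, i ≤ 2 * X.dim → i ≠ X.dim → P * pi i = pi i := by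
    intro i h1 h2
    rw [hPsum, Finset.sum_mul, Finset.sum_congr rfl fun j _ => hpi j i, Finset.sum_ite_eq',
      if_pos (mem_er.2 ⟨h1, h2⟩)]
  have hPP : P * P = P := by
    conv_lhs => rw [hPsum]
    rw [Finset.sum_mul]
    exact Finset.sum_congr rfl fun i hi => hpP i (mem_er.1 hi).1 (mem_er.1 hi).2
  have hνN : IsNilpotent ν := by
    rw [← nilpotent_iff]
    obtain ⟨n, hn⟩ := hN
    refine ⟨n, ?_⟩
    have e : (ν : C.A (X.prod X)) = (C.comp (C.comp (outer C p) (dg C X - coverPart C f c)) (outer C p)) := by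
      change C.comp (outer C p) (C.comp (dg C X - coverPart C f c) (outer C p)) = _
      rw [comp_assoc C]
    rw [e]
    exact hn
  obtain ⟨N, hN'⟩ := hνN
  have hN1 : ν ^ (N + 1) = 0 := by rw [pow_succ, hN', zero_mul]
  let w : Cor C X := ∑ k ∈ Finset.range (N + 1), ν ^ k
  have hw1 : w * (1 - ν) = 1 := by
    have := geom_sum_mul_neg ν (N + 1)
    rw [hN1, sub_zero] at this
    exact this
  have hPν : P * ν = ν := by
    change P * (P * (1 - E) * P) = P * (1 - E) * P
    rw [← mul_assoc, ← mul_assoc, hPP]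
  have hνP : ν * P = ν := by
    change P * (1 - E) * P * P = P * (1 - E) * P
    rw [mul_assoc, hPP]
  have hPEP : P * E * P = (1 - ν) * P := by
    rw [sub_mul, one_mul, hνP]
    change P * E * P = P - P * (1 - E) * P
    rw [mul_sub, mul_one, sub_mul, hPP]
    abel
  have hkey : w * P * E * P = P := by
    rw [mul_assoc w, mul_assoc w, hPEP, ← mul_assoc, hw1, one_mul]
  let z : ℕ → Cor C X := fun i => pi i * w * P
  have hmul : ∀ i j, i ≤ 2 * Y.dim → i ≠ Y.dim → j ≤ 2 * Y.dim → j ≠ Y.dim →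
      (C.comp (dn f c (z i)) (dn f c (z j))) = if i = j then dn f c (z i) else 0 := by
    intro i j hi hin hj hjn
    rw [hd] at hi hin hj hjn
    rw [dn_dn f]
    have h1 : z j * ee f c * z i = pi j * pi i * w * P := by
      calc z j * ee f c * z i = pi j * w * P * E * (P * pi i * w * P) := by
            rw [hPp i hi hin]
        _ = pi j * (w * P * E * P) * pi i * w * P := by simp only [mul_assoc]
        _ = pi j * pi i * w * P := by rw [hkey, hpP j hj hjn]
    rw [h1, hpi]
    by_cases h : i = j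
    · subst h; rw [if_pos rfl, if_pos rfl]
    · rw [if_neg (Ne.symm h), if_neg h, zero_mul, zero_mul, dn]
      have h0 : (C.comp (C.cograph f) ((0 : Cor C X) : C.A (X.prod X))) = 0 := comp_zero C _
      rw [h0, zero_comp, smul_zero]
  have hPact : ∀ (m : ℤ) (a : H.A X), a ∈ H.gr X m → m ≠ X.dim → actH C X H P a = a := by
    intro m a ha hm
    by_cases ha0 : a = 0
    · rw [ha0, map_zero]
    have h0 := nonneg_of_mem H ha ha0
    have h2 : m ≤ 2 * X.dim := by
      by_contra h3
      rw [gr_top (H := H) (by omega)] at ha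
      exact ha0 ((Submodule.mem_bot _).1 ha)
    obtain ⟨m', rfl⟩ := Int.eq_ofNat_of_zero_le h0
    rw [hPsum, map_sum, LinearMap.sum_apply, Finset.sum_eq_single m']
    · exact hp.act_self m' a ha
    · intro j _ hj
      exact hp.act_ne j m' a (by intro e; exact hj (by exact_mod_cast e.symm)) ha
    · intro hj
      exact absurd (mem_er.2 ⟨by exact_mod_cast h2, by exact_mod_cast hm⟩) hj
  have hPmid : ∀ (a : H.A X), a ∈ H.gr X X.dim → actH C X H P a = 0 := by
    intro a ha
    rw [hPsum, map_sum, LinearMap.sum_apply]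
    refine Finset.sum_eq_zero fun j hj => ?_
    exact hp.act_ne j X.dim a (by
      have := (mem_er.1 hj).2
      intro e; exact this (by exact_mod_cast e.symm)) ha
  have hνact : actH C X H ν = 0 := by
    apply ext_gr
    intro m a ha
    change actH C X H (P * (1 - E) * P) a = 0
    rw [map_mul, map_mul, Module.End.mul_apply, Module.End.mul_apply]
    by_cases hm : m = X.dim
    · subst hm
      rw [hPmid a ha, map_zero, map_zero]
    · rw [hPact m a ha hm, map_sub, map_one, LinearMap.sub_apply, Module.End.one_apply,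
        ee_act hc hd hf hO hm ha, sub_self, map_zero]
  have hwact : actH C X H w = 1 := by
    change actH C X H (∑ k ∈ Finset.range (N + 1), ν ^ k) = 1
    rw [map_sum, Finset.sum_range_succ']
    simp only [map_pow, hνact]
    rw [Finset.sum_eq_zero fun k _ => by rw [zero_pow (Nat.succ_ne_zero k)], zero_add, pow_zero]
  have hdegz : ∀ i, z i ∈ cor0 C X := by
    intro i
    have h1 : P ∈ cor0 C X := by
      rw [hPsum]
      exact Subalgebra.sum_mem _ fun j _ => hp.deg j
    have h2 : ν ∈ cor0 C X := Subalgebra.mul_mem _ (Subalgebra.mul_mem _ h1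
      (Subalgebra.sub_mem _ (Subalgebra.one_mem _) (ee_mem hd f c))) h1
    have h3 : w ∈ cor0 C X := Subalgebra.sum_mem _ fun j _ => Subalgebra.pow_mem _ h2 j
    exact Subalgebra.mul_mem _ (Subalgebra.mul_mem _ (hp.deg i) h3) h1
  refine ⟨fill fun i => dn f c (z i), isCK_fill (fun i _ _ => dn_mem hd f c (hdegz i)) hmul ?_⟩
  intro i m b hi hin hb
  rw [hd] at hi hin
  have hpb : H.pull f b ∈ H.gr X m := H.pull_mem f hb
  have hz : actH C X H (z i) (H.pull f b) = if m = i then H.pull f b else 0 := by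
    change actH C X H (pi i * w * P) (H.pull f b) = _
    rw [map_mul, map_mul, Module.End.mul_apply, Module.End.mul_apply, hwact,
      Module.End.one_apply]
    by_cases hm : m = X.dim
    · subst hm
      rw [hPmid _ hpb, map_zero, if_neg]
      intro e; exact hin (by exact_mod_cast e.symm)
    · rw [hPact m _ hpb hm]
      by_cases h : m = i
      · subst h
        rw [if_pos rfl]
        exact hp.act_self i _ hpb
      · rw [if_neg h]
        exact hp.act_ne i m _ h hpb
  by_cases h : m = i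
  · rw [if_pos h] at hz ⊢
    exact dn_act_self hc hf _ hz
  · rw [if_neg h] at hz ⊢
    exact dn_act_zero f c _ hz

lemma partInv_cover (hc : c ≠ 0) (hf : C.push f 1 = c • 1)
    {π : ℕ → C.A (Y.prod Y)} (hπ : IsCK H Y π) :
    PartInv C f 0 π (fun i => c⁻¹ • π i) := by
  have hpp := pp_cover hf
  refine ⟨fun i _ _ => ?_, fun i _ _ => ?_, fun i _ _ => ?_, fun i _ => ?_, fun i _ _ => ?_⟩
  · have e : (Y.dim : ℤ) + -((0 : ℕ) : ℤ) = Y.dim := by push_cast; ring
    rw [e]
    exact Submodule.smul_mem _ _ (hπ.deg i)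
  · rw [comp_smul', mul_zero, add_zero, hπ.idem]
  · rw [smul_comp', hπ.idem]
  · rw [hpp]
    simp only [comp_smul', smul_comp', comp_dg, smul_smul, inv_mul_cancel₀ hc, one_smul, hπ.idem]
  · rw [hpp, mul_zero, add_zero]
    simp only [comp_smul', smul_comp', comp_dg, smul_smul, mul_inv_cancel₀ hc, one_smul]

/-- **Chow-Kunneth decompositions of covers.** -/
theorem cover_tfae (hc : c ≠ 0) (hd : Y.dim = X.dim) (hf : C.push f 1 = c • 1)
    (hO : OntoBelow H f) :
    [∃ π, IsCK H Y π,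
      ∃ π p, IsCK H Y π ∧ IsCK H X p ∧ ∀ i ≤ 2 * X.dim, i ≠ X.dim →
        p i = c⁻¹ • (C.comp (C.comp (C.graph f) (π i)) (C.cograph f)),
      ∃ p, IsCK H X p ∧
        ∃ n, corPow C (C.comp (C.comp (outer C p) (dg C X - coverPart C f c)) (outer C p)) n = 0].TFAE := by
  tfae_have 1 → 2 := by
    rintro ⟨π, hπ⟩
    have hP := partInv_cover hc hf hπ
    have hL : ∀ i, (C.comp (π i) (pp C f)) = (C.comp (pp C f) (π (i + 2 * 0))) := by
      intro i
      rw [pp_cover hf, comp_smul', smul_comp', comp_dg, dg_comp, mul_zero, add_zero]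
    refine ⟨π, _, hπ, isCK_pr (by omega) hπ hO hP hL, fun i hi hin => ?_⟩
    rw [pr_of f _ hi hin, sand, comp_smul', smul_comp']
  tfae_have 2 → 3 := by
    rintro ⟨π, p, hπ, hp, h⟩
    refine ⟨p, hp, 1, ?_⟩
    have h1 : (C.comp (outer C p) (dg C X - coverPart C f c)) = 0 := by
      rw [outer, sum_comp]
      refine Finset.sum_eq_zero fun i hi => ?_
      rw [h i (mem_er.1 hi).1 (mem_er.1 hi).2, comp_sub, comp_dg, smul_comp', comp_assoc C _
        (C.cograph f)]
      have h2 : (C.comp (C.cograph f) (coverPart C f c)) = C.cograph f := cograph_ee hc hf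
      rw [h2, sub_self]
    rw [h1, zero_comp]
    change (C.comp (dg C X) 0) = 0
    rw [comp_zero]
  tfae_have 3 → 1 := by
    rintro ⟨p, hp, hN⟩
    exact down_of_nilpotent hc hd hf hO hp hN
  tfae_finish

end weil

end Pool.Agent.Q73.LS
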