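import Pool.Agent.Y107.SDDefs

/-!
# Morphisms with isomorphic cohomology outside the middle degree: definitions
-/

set_option autoImplicit false

open CategoryTheory AlgebraicGeometry

universe u v w

namespace Pool.Agent.Q73.LS

open Pool.Agent.H914 Pool.Agent.H914.VarClass Pool.Agent.H914.VarClass.Obj Pool.Agent.W492.BB
  Pool.Agent.W550.Corr Pool.Agent.TH133 Pool.Agent.Y107

variable {k : Type u} [Field k] {𝒱 : VarClass k}

/-- `f^*` is onto in degrees below the dimension of `X`. -/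
def OntoBelow {C : TheoryData.{u, v, 0} 𝒱 ℚ} {K : Type w} [Field K]
    (H : WeilTheoryData.{u, v, w} C K) {X Y : 𝒱.Obj} (f : X ⟶ Y) : Prop :=
  ∀ i : ℕ, i < X.dim → ∀ a : H.A X, H.Deg i a → ∃ b : H.A Y, H.Deg i b ∧ H.pull f b = a

/-- The pull-back `f^*` identifies the motive `h^i(Y)` of the decomposition `π` with the motive
`h^i(X)` of the decomposition `p`, for all `i < dim X`: it is homogeneous, and there is a
correspondence `g` of degree zero from `X` to `Y` which is inverse to it. -/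
def PullIso (C : TheoryData.{u, v, 0} 𝒱 ℚ) {X Y : 𝒱.Obj} (f : X ⟶ Y) (π : ℕ → C.A (Y.prod Y))
    (p : ℕ → C.A (X.prod X)) : Prop :=
  ∀ i < X.dim, C.comp (π i) (C.cograph f) = C.comp (C.cograph f) (p i) ∧
    ∃ g : C.A (X.prod Y), C.Deg X.dim g ∧
      C.comp (C.comp (π i) (C.cograph f)) g = π i ∧ C.comp (C.comp (p i) g) (C.cograph f) = p i

/-- For the decomposition `π` of `Y` and the morphism `f : X → Y` with `dim Y = dim X + r`, the
intersection `L = f_* f^*` with the class `f_* [X]` is homogeneous, `L ∘ π i = π (i + 2 r) ∘ L`, and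
for `i < dim X` the morphism of Chow motives `L : h^i(Y) → h^(i + 2 r)(Y)(r)` has a left inverse
`μ ∈ CH^(dim Y - r)(Y × Y)`. -/
structure SplitBelow (C : TheoryData.{u, v, 0} 𝒱 ℚ) {X Y : 𝒱.Obj} (f : X ⟶ Y) (r : ℕ)
    (π : ℕ → C.A (Y.prod Y)) : Prop where
  homogeneous : ∀ i, C.comp (π i) (C.comp (C.cograph f) (C.graph f)) =
    C.comp (C.comp (C.cograph f) (C.graph f)) (π (i + 2 * r))
  split : ∀ i < X.dim, ∃ μ : C.A (Y.prod Y), C.Deg ((Y.dim : ℤ) - r) μ ∧
    C.comp (C.comp (π i) (C.comp (C.cograph f) (C.graph f))) μ = π i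

/-- The projector `c⁻¹ f^* f_*` attached to a morphism `f : X → Y` of degree `c ≠ 0` between
varieties of the same dimension. -/
noncomputable def coverPart (C : TheoryData.{u, v, 0} 𝒱 ℚ) {X Y : 𝒱.Obj} (f : X ⟶ Y) (c : ℚ) :
    C.A (X.prod X) :=
  c⁻¹ • C.comp (C.graph f) (C.cograph f)

/-- The sum of the projectors `p i`, `i ≤ 2 dim X`, `i ≠ dim X`. -/
noncomputable def outer (C : TheoryData.{u, v, 0} 𝒱 ℚ) {X : 𝒱.Obj} (p : ℕ → C.A (X.prod X)) :
    C.A (X.prod X) :=
  ∑ i ∈ (Finset.range (2 * X.dim + 1)).erase X.dim, p i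

/-- Murre's conjecture (B) for the Chow-Kunneth decomposition `p` of `X`: `F^0 CH^j(X) = CH^j(X)` and
`F^(j + 1) CH^j(X) = 0` for all `j`. -/
def SatisfiesB (C : TheoryData.{u, v, 0} 𝒱 ℚ) {X : 𝒱.Obj} (p : ℕ → C.A (X.prod X)) : Prop :=
  ∀ j : ℕ, ckFil C p j 0 = C.gr X j ∧ ckFil C p j (j + 1) = ⊥

/-- Murre's conjecture (D) for the Chow-Kunneth decomposition `p` of `X`: `F^1 CH^j(X)` is the group of
homologically trivial cycles, for all `j`. -/
def SatisfiesD {C : TheoryData.{u, v, 0} 𝒱 ℚ} {K : Type w} [Field K]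
    (H : WeilTheoryData.{u, v, w} C K) {X : 𝒱.Obj} (p : ℕ → C.A (X.prod X)) : Prop :=
  ∀ (j : ℕ) (x : C.A X), x ∈ ckFil C p j 1 ↔ C.Deg j x ∧ H.cl x = 0

/-- The classical fact on divisors: self-correspondences of degree zero acting as zero on `H^1(X)` act
as zero on the homologically trivial divisors, that is on `Pic^0(X) ⊗ ℚ`. -/
def PicardFaithful {C : TheoryData.{u, v, 0} 𝒱 ℚ} {K : Type w} [Field K]
    (H : WeilTheoryData.{u, v, w} C K) : Prop :=
  ∀ (X : 𝒱.Obj) (γ : C.A (X.prod X)), C.Deg X.dim γ → Kills H γ 1 →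
    ∀ z : C.A X, C.Deg 1 z → H.cl z = 0 → C.act γ z = 0

end Pool.Agent.Q73.LS
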