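import Pool.Agent.Y107.SDMul
import Pool.Agent.Q73.LS.Defs

/-!
# Chow-Kunneth decompositions and morphisms with isomorphic cohomology outside the middle degree

`f : X ⟶ Y`, `dim Y = dim X + r`, `L = f_* f^*`.
-/

set_option autoImplicit false

open CategoryTheory AlgebraicGeometry

universe u v w

namespace Pool.Agent.Q73.LS

open Pool.Agent.H914 Pool.Agent.H914.VarClass Pool.Agent.H914.VarClass.Obj Pool.Agent.W492.BB
  Pool.Agent.W550.Corr Pool.Agent.TH133 Pool.Agent.Y107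

set_option linter.unusedSectionVars false

variable {k : Type u} [Field k] {𝒱 : VarClass k}

/-- `f_* f^*` as a self-correspondence of `Y`: the intersection with the class `f_* [X]`. -/
noncomputable def pp (C : TheoryData.{u, v, 0} 𝒱 ℚ) {X Y : 𝒱.Obj} (f : X ⟶ Y) : C.A (Y.prod Y) :=
  C.comp (C.cograph f) (C.graph f)

/-- `ν i : h(Y)(r) → h(Y)` are partial inverses of `L = f_* f^*`. -/
structure PartInv (C : TheoryData.{u, v, 0} 𝒱 ℚ) {X Y : 𝒱.Obj} (f : X ⟶ Y) (r : ℕ)
    (π ν : ℕ → C.A (Y.prod Y)) : Prop where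
  deg : ∀ i ≤ 2 * X.dim, i ≠ X.dim → ν i ∈ C.gr (Y.prod Y) ((Y.dim : ℤ) + -r)
  left : ∀ i ≤ 2 * X.dim, i ≠ X.dim → C.comp (π (i + 2 * r)) (ν i) = ν i
  right : ∀ i ≤ 2 * X.dim, i ≠ X.dim → C.comp (ν i) (π i) = ν i
  low : ∀ i < X.dim, C.comp (C.comp (π i) (pp C f)) (ν i) = π i
  high : ∀ i ≤ 2 * X.dim, X.dim < i → C.comp (ν i) (pp C f) = π (i + 2 * r)

lemma mem_er {n i : ℕ} : i ∈ (Finset.range (2 * n + 1)).erase n ↔ i ≤ 2 * n ∧ i ≠ n := by
  rw [Finset.mem_erase, Finset.mem_range]; constructor <;> intro h <;> constructor <;> omega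

section chow

variable {C : TheoryData.{u, v, 0} 𝒱 ℚ} [hC : IsChowProj C] {X Y Z : 𝒱.Obj}

include hC

lemma pp_eq (f : X ⟶ Y) : pp C f = C.mulCorr (C.push f 1) := cograph_graph f

lemma tp_cograph' (f : X ⟶ Y) : tp C (C.cograph f) = C.graph f := by
  rw [tp_eq_push, TheoryData.cograph, TheoryData.graph, ← C.push_comp]
  have e1 : Obj.lift f (𝟙 X) ≫ sw Y X = Obj.lift (𝟙 X) f := by
    apply prod_ext <;> simp [sw, comp_lift]
  rw [e1]

lemma tp_graph' (f : X ⟶ Y) : tp C (C.graph f) = C.cograph f := by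
  rw [← tp_cograph' f, tp_tp]

/-- `f^* ν f_*` -/
noncomputable def sand (f : X ⟶ Y) (ν : C.A (Y.prod Y)) : C.A (X.prod X) :=
  (C.comp (C.comp (C.graph f) ν) (C.cograph f))

lemma sand_sand (f : X ⟶ Y) (ν μ : C.A (Y.prod Y)) :
    (C.comp (sand f ν) (sand f μ)) = sand f (C.comp (C.comp ν (pp C f)) μ) := by
  simp only [sand, pp, comp_assoc C]

lemma sand_zero (f : X ⟶ Y) : sand f (0 : C.A (Y.prod Y)) = 0 := by
  rw [sand, comp_zero, zero_comp]

lemma tp_sand (f : X ⟶ Y) (ν : C.A (Y.prod Y)) : tp C (sand f ν) = sand f (tp C ν) := by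
  rw [sand, tp_comp C (ch_comm C), tp_comp C (ch_comm C), tp_cograph', tp_graph', sand,
    comp_assoc C]

lemma sand_mem (f : X ⟶ Y) {r : ℕ} (hr : Y.dim = X.dim + r) {ν : C.A (Y.prod Y)}
    (hν : ν ∈ C.gr (Y.prod Y) ((Y.dim : ℤ) + -r)) : sand f ν ∈ C.gr (X.prod X) X.dim := by
  have h1 : C.graph f ∈ C.gr (X.prod Y) ((X.dim : ℤ) + r) := by
    have h := graph_mem' (C := C) f
    have e : (Y.dim : ℤ) = X.dim + r := by rw [hr]; push_cast; ring
    rwa [e] at h
  have h2 : C.cograph f ∈ C.gr (Y.prod X) ((Y.dim : ℤ) + 0) := by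
    rw [add_zero]; exact cograph_mem f
  have h3 := comp_mem C (comp_mem C h1 hν) h2
  have e : (X.dim : ℤ) + ((r : ℤ) + -r + 0) = X.dim := by ring
  rw [e] at h3
  exact h3

variable {f : X ⟶ Y} {r : ℕ} {π ν : ℕ → C.A (Y.prod Y)}

lemma PartInv.self (h : PartInv C f r π ν) {i : ℕ} (hi : i ≤ 2 * X.dim) (hn : i ≠ X.dim) :
    (C.comp (C.comp (ν i) (pp C f)) (ν i)) = ν i := by
  rcases lt_or_gt_of_ne hn with h1 | h1
  · have e1 := h.low i h1
    have e2 : (C.comp (C.comp (ν i) (pp C f)) (ν i)) = (C.comp (ν i) (C.comp (C.comp (π i) (pp C f)) (ν i))) := by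
      rw [comp_assoc C (π i), ← comp_assoc C (ν i) (π i), h.right i hi hn, comp_assoc C]
    rw [e2, e1, h.right i hi hn]
  · rw [h.high i hi h1, h.left i hi hn]

lemma PartInv.cross (h : PartInv C f r π ν)
    (hL : ∀ i, (C.comp (π i) (pp C f)) = (C.comp (pp C f) (π (i + 2 * r))))
    (hπ : ∀ i j, i ≠ j → (C.comp (π i) (π j)) = 0) {i j : ℕ} (hi : i ≤ 2 * X.dim) (hin : i ≠ X.dim)
    (hj : j ≤ 2 * X.dim) (hjn : j ≠ X.dim) (hij : i ≠ j) :
    (C.comp (C.comp (ν i) (pp C f)) (ν j)) = 0 := by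
  have h1 : (C.comp (C.comp (ν i) (pp C f)) (ν j)) = (C.comp (C.comp (C.comp (ν i) (π i)) (pp C f)) (C.comp (π (j + 2 * r)) (ν j))) := by
    rw [h.right i hi hin, h.left j hj hjn]
  have h2 : (C.comp (C.comp (ν i) (π i)) (pp C f)) = (C.comp (C.comp (ν i) (pp C f)) (π (i + 2 * r))) := by
    rw [comp_assoc C (ν i), hL, ← comp_assoc C]
  rw [h1, h2, comp_assoc C (C.comp (ν i) (pp C f)), ← comp_assoc C (π (i + 2 * r)),
    hπ (i + 2 * r) (j + 2 * r) (by omega), zero_comp, comp_zero]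

open Classical in
/-- the projectors -/
noncomputable def pr (f : X ⟶ Y) (ν : ℕ → C.A (Y.prod Y)) (i : ℕ) : C.A (X.prod X) :=
  if i = X.dim then dg C X - ∑ j ∈ (Finset.range (2 * X.dim + 1)).erase X.dim, sand f (ν j)
  else if i ≤ 2 * X.dim then sand f (ν i) else 0

lemma pr_of (f : X ⟶ Y) (ν : ℕ → C.A (Y.prod Y)) {i : ℕ} (hi : i ≤ 2 * X.dim)
    (hn : i ≠ X.dim) : pr f ν i = sand f (ν i) := by
  rw [pr, if_neg hn, if_pos hi]

lemma pr_mid (f : X ⟶ Y) (ν : ℕ → C.A (Y.prod Y)) : pr f ν X.dim =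
    dg C X - ∑ j ∈ (Finset.range (2 * X.dim + 1)).erase X.dim, sand f (ν j) := by
  rw [pr, if_pos rfl]

lemma pr_out (f : X ⟶ Y) (ν : ℕ → C.A (Y.prod Y)) {i : ℕ} (hi : 2 * X.dim < i) :
    pr f ν i = 0 := by
  rw [pr, if_neg (by omega), if_neg (by omega)]

lemma sand_mul (h : PartInv C f r π ν) (hL : ∀ i, (C.comp (π i) (pp C f)) = (C.comp (pp C f) (π (i + 2 * r))))
    (hπ : ∀ i j, i ≠ j → (C.comp (π i) (π j)) = 0) {i j : ℕ} (hi : i ≤ 2 * X.dim) (hin : i ≠ X.dim)
    (hj : j ≤ 2 * X.dim) (hjn : j ≠ X.dim) :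
    (C.comp (sand f (ν i)) (sand f (ν j))) = if i = j then sand f (ν i) else 0 := by
  rw [sand_sand]
  by_cases hij : i = j
  · subst hij
    rw [h.self hi hin, if_pos rfl]
  · rw [h.cross hL hπ hi hin hj hjn hij, if_neg hij, sand_zero]

lemma sand_sum (h : PartInv C f r π ν) (hL : ∀ i, (C.comp (π i) (pp C f)) = (C.comp (pp C f) (π (i + 2 * r))))
    (hπ : ∀ i j, i ≠ j → (C.comp (π i) (π j)) = 0) {i : ℕ} (hi : i ≤ 2 * X.dim) (hin : i ≠ X.dim) :
    (C.comp (sand f (ν i)) (∑ j ∈ (Finset.range (2 * X.dim + 1)).erase X.dim, sand f (ν j))) =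
      sand f (ν i) := by
  rw [comp_sum, Finset.sum_congr rfl fun j hj => sand_mul h hL hπ hi hin (mem_er.1 hj).1
    (mem_er.1 hj).2, Finset.sum_ite_eq, if_pos (mem_er.2 ⟨hi, hin⟩)]

lemma sum_sand (h : PartInv C f r π ν) (hL : ∀ i, (C.comp (π i) (pp C f)) = (C.comp (pp C f) (π (i + 2 * r))))
    (hπ : ∀ i j, i ≠ j → (C.comp (π i) (π j)) = 0) {i : ℕ} (hi : i ≤ 2 * X.dim) (hin : i ≠ X.dim) :
    (C.comp (∑ j ∈ (Finset.range (2 * X.dim + 1)).erase X.dim, sand f (ν j)) (sand f (ν i))) =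
      sand f (ν i) := by
  rw [sum_comp]
  have h1 : ∀ j ∈ (Finset.range (2 * X.dim + 1)).erase X.dim, (C.comp (sand f (ν j)) (sand f (ν i))) =
      if i = j then sand f (ν i) else 0 := by
    intro j hj
    rw [sand_mul h hL hπ (mem_er.1 hj).1 (mem_er.1 hj).2 hi hin]
    by_cases e : i = j
    · subst e; simp
    · rw [if_neg e, if_neg (Ne.symm e)]
  rw [Finset.sum_congr rfl h1, Finset.sum_ite_eq, if_pos (mem_er.2 ⟨hi, hin⟩)]

lemma pr_orth (h : PartInv C f r π ν) (hL : ∀ i, (C.comp (π i) (pp C f)) = (C.comp (pp C f) (π (i + 2 * r))))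
    (hπ : ∀ i j, i ≠ j → (C.comp (π i) (π j)) = 0) (i j : ℕ) :
    (C.comp (pr f ν i) (pr f ν j)) = if i = j then pr f ν i else 0 := by
  by_cases hi : i ≤ 2 * X.dim
  swap
  · rw [pr_out f ν (by omega), zero_comp]; simp
  by_cases hj : j ≤ 2 * X.dim
  swap
  · rw [pr_out f ν (i := j) (by omega), comp_zero, if_neg (by omega)]
  by_cases hin : i = X.dim
  · subst hin
    by_cases hjn : j = X.dim
    · subst hjn
      rw [if_pos rfl, pr_mid, sub_comp, comp_sub, comp_dg, dg_comp, sum_comp]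
      rw [Finset.sum_congr rfl (fun j hj => show (C.comp (sand f (ν j)) (dg C X - _)) = 0 by
        rw [comp_sub, comp_dg, sand_sum h hL hπ (mem_er.1 hj).1 (mem_er.1 hj).2, sub_self])]
      rw [Finset.sum_const_zero, sub_zero]
    · rw [if_neg (Ne.symm hjn), pr_mid, pr_of f ν hj hjn, sub_comp, dg_comp,
        sum_sand h hL hπ hj hjn, sub_self]
  · by_cases hjn : j = X.dim
    · subst hjn
      rw [if_neg hin, pr_mid, pr_of f ν hi hin, comp_sub, comp_dg, sand_sum h hL hπ hi hin,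
        sub_self]
    · rw [pr_of f ν hi hin, pr_of f ν hj hjn, sand_mul h hL hπ hi hin hj hjn]

end chow

section weil

variable {C : TheoryData.{u, v, 0} 𝒱 ℚ} [hC : IsChowProj C] {K : Type w} [Field K]
  {H : WeilTheoryData.{u, v, w} C K} [hH : IsWeilProj H] {X Y : 𝒱.Obj}

include hC hH

lemma actH_sand (f : X ⟶ Y) (ν : C.A (Y.prod Y)) (a : H.A X) :
    H.act (H.cl (sand f ν)) a = H.pull f (H.act (H.cl ν) (H.push f a)) := by
  have h1 : H.cl (C.graph f) = H.graph f := by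
    rw [TheoryData.graph, TheoryData.graph, H.cl_push, map_one]
  have h2 : H.cl (C.cograph f) = H.cograph f := by
    rw [TheoryData.cograph, TheoryData.cograph, H.cl_push, map_one]
  rw [sand, actH_comp, actH_comp, h1, h2, H.act_graph, H.act_cograph]

lemma actH_pp (f : X ⟶ Y) (b : H.A Y) :
    H.act (H.cl (pp C f)) b = H.push f (H.pull f b) := by
  have h1 : H.cl (C.graph f) = H.graph f := by
    rw [TheoryData.graph, TheoryData.graph, H.cl_push, map_one]
  have h2 : H.cl (C.cograph f) = H.cograph f := by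
    rw [TheoryData.cograph, TheoryData.cograph, H.cl_push, map_one]
  rw [pp, actH_comp, h1, h2, H.act_graph, H.act_cograph]

/-- `f_*` is injective above the middle degree -/
lemma push_inj {f : X ⟶ Y} (hf : OntoBelow H f) {i : ℕ} (hi : X.dim < i) {a : H.A X}
    (ha : a ∈ H.gr X i) (h0 : H.push f a = 0) : a = 0 := by
  apply H.nondeg
  intro b
  have h1 : (H.tr X) ∘ₗ (LinearMap.mulLeft K a) = 0 := by
    apply ext_gr
    intro m b hb
    rw [LinearMap.comp_apply, LinearMap.mulLeft_apply, LinearMap.zero_apply]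
    by_cases hm : (i : ℤ) + m = 2 * X.dim
    · by_cases hb0 : b = 0
      · rw [hb0, mul_zero, map_zero]
      have hm0 := nonneg_of_mem H hb hb0
      obtain ⟨m', rfl⟩ := Int.eq_ofNat_of_zero_le hm0
      obtain ⟨c, hc, rfl⟩ := hf m' (by omega) b hb
      rw [← H.tr_push f, H.proj_right, h0, zero_mul, map_zero]
    · exact tr_zero H (H.mul_mem ha hb) hm
  have h2 := LinearMap.congr_fun h1 b
  simpa using h2

lemma push_memH {f : X ⟶ Y} {r : ℕ} (hr : Y.dim = X.dim + r) {i : ℤ} {a : H.A X}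
    (ha : a ∈ H.gr X i) : H.push f a ∈ H.gr Y (i + 2 * r) := by
  have h := H.push_mem f ha
  have e : i + 2 * ((Y.dim : ℤ) - X.dim) = i + 2 * r := by rw [hr]; push_cast; ring
  rwa [e] at h

variable {f : X ⟶ Y} {r : ℕ} {π ν : ℕ → C.A (Y.prod Y)}

lemma actH_self (hr : Y.dim = X.dim + r) (hπ : IsCK H Y π) (hf : OntoBelow H f)
    (h : PartInv C f r π ν) {i : ℕ} (hi : i ≤ 2 * X.dim) (hin : i ≠ X.dim) {a : H.A X}
    (ha : a ∈ H.gr X i) : H.act (H.cl (sand f (ν i))) a = a := by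
  rw [actH_sand]
  rcases lt_or_gt_of_ne hin with h1 | h1
  · obtain ⟨b, hb, rfl⟩ := hf i h1 a ha
    rw [← actH_pp (C := C), ← actH_comp]
    have e1 : H.act (H.cl (C.comp (pp C f) (ν i))) b = b := by
      have e2 := hπ.act_self i b hb
      calc H.act (H.cl (C.comp (pp C f) (ν i))) b
          = H.act (H.cl (C.comp (pp C f) (ν i))) (H.act (H.cl (π i)) b) := by rw [e2]
        _ = H.act (H.cl (C.comp (C.comp (π i) (pp C f)) (ν i))) b := by
            rw [comp_assoc C, actH_comp (H := H) (π i)]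
        _ = b := by rw [h.low i h1, e2]
    rw [e1]
  · have hmem : H.pull f (H.act (H.cl (ν i)) (H.push f a)) ∈ H.gr X i := by
      have h2 := push_memH (f := f) hr ha
      have h3 : H.cl (ν i) ∈ H.gr (Y.prod Y) (2 * ((Y.dim : ℤ) + -r)) := H.cl_mem (h.deg i hi hin)
      have h4 := H.push_mem (snd Y Y) (H.mul_mem h3 (H.pull_mem (fst Y Y) h2))
      have e : 2 * ((Y.dim : ℤ) + -r) + ((i : ℤ) + 2 * r) +
          2 * ((Y.dim : ℤ) - ((Y.prod Y).dim : ℤ)) = i := by rw [dim_prod]; push_cast; ring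
      rw [e] at h4
      exact H.pull_mem f h4
    have h5 : H.pull f (H.act (H.cl (ν i)) (H.push f a)) - a = 0 := by
      apply push_inj (H := H) hf h1 (Submodule.sub_mem _ hmem ha)
      rw [map_sub, ← actH_pp (C := C), ← actH_comp, h.high i hi h1,
        hπ.act_self (i + 2 * r) _ (by
          have h2 := push_memH (f := f) hr ha
          have e : ((i + 2 * r : ℕ) : ℤ) = (i : ℤ) + 2 * r := by push_cast; ring
          rw [TheoryData.Deg, e]; exact h2), sub_self]
    exact sub_eq_zero.1 h5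

lemma actH_ne (hr : Y.dim = X.dim + r) (hπ : IsCK H Y π)
    (h : PartInv C f r π ν) {i : ℕ} (hi : i ≤ 2 * X.dim) (hin : i ≠ X.dim) {m : ℤ}
    (hm : m ≠ i) {a : H.A X} (ha : a ∈ H.gr X m) : H.act (H.cl (sand f (ν i))) a = 0 := by
  rw [actH_sand, ← h.left i hi hin, actH_comp,
    hπ.act_ne (i + 2 * r) (m + 2 * r) _ (by push_cast; omega) (push_memH (f := f) hr ha)]
  have : H.act (H.cl (ν i)) (0 : H.A Y) = 0 := H.act_map_zero _
  rw [this, map_zero]

/-- The projectors form a Chow-Kunneth decomposition. -/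
theorem isCK_pr (hr : Y.dim = X.dim + r) (hπ : IsCK H Y π) (hf : OntoBelow H f)
    (h : PartInv C f r π ν) (hL : ∀ i, (C.comp (π i) (pp C f)) = (C.comp (pp C f) (π (i + 2 * r)))) :
    IsCK H X (pr f ν) := by
  have horth := pr_orth h hL (fun i j hij => hπ.orth i j hij)
  have hq : ∀ (i : ℕ) (m : ℤ) (a : H.A X), i ≤ 2 * X.dim → i ≠ X.dim → a ∈ H.gr X m →
      H.act (H.cl (sand f (ν i))) a = if m = i then a else 0 := by
    intro i m a hi hin ha
    by_cases hm : m = i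
    · subst hm
      rw [if_pos rfl]
      exact actH_self hr hπ hf h hi hin ha
    · rw [if_neg hm]
      exact actH_ne hr hπ h hi hin hm ha
  have hcl : ∀ (s : Finset ℕ) (a : H.A X), H.act (H.cl (∑ j ∈ s, sand f (ν j))) a =
      ∑ j ∈ s, H.act (H.cl (sand f (ν j))) a := by
    intro s a
    rw [map_sum, act_sum]
  have hmid : ∀ (m : ℤ) (a : H.A X), a ∈ H.gr X m →
      H.act (H.cl (pr f ν X.dim)) a = if m = X.dim then a else 0 := by
    intro m a ha
    rw [pr_mid, map_sub, H.act_sub, actH_dg, hcl,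
      Finset.sum_congr rfl fun j hj => hq j m a (mem_er.1 hj).1 (mem_er.1 hj).2 ha]
    by_cases hm : m = X.dim
    · rw [if_pos hm, Finset.sum_eq_zero, sub_zero]
      intro j hj
      rw [if_neg]
      intro e
      exact (mem_er.1 hj).2 (by omega)
    · rw [if_neg hm]
      by_cases ha0 : a = 0
      · rw [ha0]; simp
      have h0 := nonneg_of_mem H ha ha0
      have h2 : m ≤ 2 * X.dim := by
        by_contra h3
        rw [gr_top (H := H) (by omega)] at ha
        exact ha0 ((Submodule.mem_bot _).1 ha)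
      obtain ⟨m', rfl⟩ := Int.eq_ofNat_of_zero_le h0
      rw [Finset.sum_eq_single m']
      · rw [if_pos rfl, sub_self]
      · intro j _ hj
        rw [if_neg (by intro e; exact hj (by exact_mod_cast e.symm))]
      · intro hj
        exact absurd (mem_er.2 ⟨by exact_mod_cast h2, by exact_mod_cast hm⟩) hj
  refine ⟨?_, fun i hi => pr_out f ν hi, ?_, ?_, ?_, ?_, ?_⟩
  · intro i
    by_cases hi : i ≤ 2 * X.dim
    swap
    · rw [pr_out f ν (by omega)]; exact Submodule.zero_mem _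
    by_cases hin : i = X.dim
    · subst hin
      rw [pr_mid]
      refine Submodule.sub_mem _ (dg_mem C X) (Submodule.sum_mem _ fun j hj => ?_)
      exact sand_mem f hr (h.deg j (mem_er.1 hj).1 (mem_er.1 hj).2)
    · rw [pr_of f ν hi hin]
      exact sand_mem f hr (h.deg i hi hin)
  · intro i
    rw [horth i i, if_pos rfl]
  · intro i j hij
    rw [horth i j, if_neg hij]
  · have hmem : X.dim ∈ Finset.range (2 * X.dim + 1) := Finset.mem_range.2 (by omega)
    rw [← Finset.add_sum_erase _ _ hmem, pr_mid, Finset.sum_congr rfl fun j hj =>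
      pr_of f ν (mem_er.1 hj).1 (mem_er.1 hj).2, sub_add_cancel]
  · intro i a ha
    by_cases hi : i ≤ 2 * X.dim
    swap
    · rw [TheoryData.Deg, gr_top (H := H) (by omega)] at ha
      rw [(Submodule.mem_bot _).1 ha]
      exact H.act_map_zero _
    by_cases hin : i = X.dim
    · subst hin
      rw [hmid _ a ha, if_pos rfl]
    · rw [pr_of f ν hi hin, hq i i a hi hin ha, if_pos rfl]
  · intro i m a hm ha
    by_cases hi : i ≤ 2 * X.dim
    swap
    · rw [pr_out f ν (by omega)]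
      exact actH_zero H a
    by_cases hin : i = X.dim
    · subst hin
      rw [hmid _ a ha, if_neg hm]
    · rw [pr_of f ν hi hin, hq i m a hi hin ha, if_neg hm]

end weil

end Pool.Agent.Q73.LS
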