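import Pool.Agent.Q73.LS.Base

/-!
# Motivic hard Lefschetz on the target: existence of the partial inverses; self-dual decompositions
-/

set_option autoImplicit false

open CategoryTheory AlgebraicGeometry

universe u v w

namespace Pool.Agent.Q73.LS

open Pool.Agent.H914 Pool.Agent.H914.VarClass Pool.Agent.H914.VarClass.Obj Pool.Agent.W492.BB
  Pool.Agent.W550.Corr Pool.Agent.TH133 Pool.Agent.Y107

set_option linter.unusedSectionVars false

variable {k : Type u} [Field k] {𝒱 : VarClass k}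

section chow

variable {C : TheoryData.{u, v, 0} 𝒱 ℚ} [hC : IsChowProj C] {X Y Z : 𝒱.Obj}

include hC

variable {f : X ⟶ Y} {r : ℕ} {π ν : ℕ → C.A (Y.prod Y)}

lemma pp_inv_low (h : PartInv C f r π ν) (hL : ∀ i, (C.comp (π i) (pp C f)) = (C.comp (pp C f) (π (i + 2 * r))))
    {i : ℕ} (hi : i < X.dim) : (C.comp (pp C f) (ν i)) = π i := by
  have h1 := h.low i hi
  rw [hL, comp_assoc C, h.left i (by omega) (by omega)] at h1
  exact h1

lemma pullIso_pr (hr : Y.dim = X.dim + r) (h : PartInv C f r π ν)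
    (hL : ∀ i, (C.comp (π i) (pp C f)) = (C.comp (pp C f) (π (i + 2 * r))))
    (horth : ∀ i j, i ≠ j → (C.comp (π i) (π j)) = 0) :
    PullIso C f π (pr f ν) := by
  intro i hi
  have hi2 : i ≤ 2 * X.dim := by omega
  have hin : i ≠ X.dim := by omega
  refine ⟨?_, (C.comp (C.graph f) (ν i)), ?_, ?_, ?_⟩
  · rw [pr_of f ν hi2 hin, sand, ← comp_assoc C, ← comp_assoc C, ← pp_inv_low h hL hi]
    rfl
  · have h1 : C.graph f ∈ C.gr (X.prod Y) ((X.dim : ℤ) + r) := by
      have h := graph_mem' (C := C) f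
      have e : (Y.dim : ℤ) = X.dim + r := by rw [hr]; push_cast; ring
      rwa [e] at h
    have h3 := comp_mem C h1 (h.deg i hi2 hin)
    have e : (X.dim : ℤ) + ((r : ℤ) + -r) = X.dim := by ring
    rw [e] at h3
    exact h3
  · have h1 := h.low i hi
    rw [pp] at h1
    calc (C.comp (C.comp (π i) (C.cograph f)) (C.comp (C.graph f) (ν i))) = (C.comp (C.comp (π i) (C.comp (C.cograph f) (C.graph f))) (ν i)) := by
          simp only [comp_assoc C]
      _ = π i := h1
  · have h1 := pr_orth h hL horth i i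
    rw [if_pos rfl, pr_of f ν hi2 hin] at h1
    rw [pr_of f ν hi2 hin]
    have h2 : (C.comp (C.comp (sand f (ν i)) (C.comp (C.graph f) (ν i))) (C.cograph f)) = (C.comp (sand f (ν i)) (sand f (ν i))) := by
      rw [comp_assoc C (sand f (ν i))]
      rfl
    rw [h2, h1]

/-- extending the partial inverses by transposition -/
noncomputable def nuT (X : 𝒱.Obj) (ν : ℕ → C.A (Y.prod Y)) (i : ℕ) : C.A (Y.prod Y) :=
  if i < X.dim then ν i else tp C (ν (2 * X.dim - i))

lemma nuT_low (ν : ℕ → C.A (Y.prod Y)) {i : ℕ} (hi : i < X.dim) : nuT X ν i = ν i := if_pos hi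

lemma nuT_high (ν : ℕ → C.A (Y.prod Y)) {i : ℕ} (hi : ¬ i < X.dim) :
    nuT X ν i = tp C (ν (2 * X.dim - i)) := if_neg hi

lemma partInv_nuT (hr : Y.dim = X.dim + r) (hsd : IsSelfDual C π)
    (hL : ∀ i, (C.comp (π i) (pp C f)) = (C.comp (pp C f) (π (i + 2 * r))))
    (hdeg : ∀ i < X.dim, ν i ∈ C.gr (Y.prod Y) ((Y.dim : ℤ) + -r))
    (hleft : ∀ i < X.dim, (C.comp (π (i + 2 * r)) (ν i)) = ν i)
    (hright : ∀ i < X.dim, (C.comp (ν i) (π i)) = ν i)
    (hlow : ∀ i < X.dim, (C.comp (C.comp (π i) (pp C f)) (ν i)) = π i) : PartInv C f r π (nuT X ν) := by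
  have hsym : tp C (pp C f) = pp C f := by rw [pp_eq, tp_mulCorr]
  have hk : ∀ i, i ≤ 2 * X.dim → X.dim < i → 2 * X.dim - i < X.dim := fun i _ _ => by omega
  have hR : ∀ i, i ≤ 2 * X.dim → X.dim < i →
      (C.comp (tp C (ν (2 * X.dim - i))) (π i)) = tp C (ν (2 * X.dim - i)) := by
    intro i h1 h2
    have e1 := congrArg (tp C) (hleft _ (hk i h1 h2))
    rw [tp_comp C (ch_comm C), hsd _ (by omega)] at e1
    have e2 : 2 * Y.dim - (2 * X.dim - i + 2 * r) = i := by omega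
    rwa [e2] at e1
  refine ⟨?_, ?_, ?_, ?_, ?_⟩
  · intro i h1 h2
    by_cases hi : i < X.dim
    · rw [nuT_low ν hi]; exact hdeg i hi
    · rw [nuT_high ν hi]
      exact tp_mem C (hdeg _ (hk i h1 (by omega)))
  · intro i h1 h2
    by_cases hi : i < X.dim
    · rw [nuT_low ν hi]; exact hleft i hi
    · rw [nuT_high ν hi]
      have e1 := congrArg (tp C) (hright _ (hk i h1 (by omega)))
      rw [tp_comp C (ch_comm C), hsd _ (by omega)] at e1
      have e2 : 2 * Y.dim - (2 * X.dim - i) = i + 2 * r := by omega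
      rwa [e2] at e1
  · intro i h1 h2
    by_cases hi : i < X.dim
    · rw [nuT_low ν hi]; exact hright i hi
    · rw [nuT_high ν hi]
      exact hR i h1 (by omega)
  · intro i hi
    rw [nuT_low ν hi]; exact hlow i hi
  · intro i h1 h2
    rw [nuT_high ν (by omega)]
    have e1 := congrArg (tp C) (hlow _ (hk i h1 h2))
    rw [tp_comp C (ch_comm C), tp_comp C (ch_comm C), hsym, hsd _ (by omega)] at e1
    have e2 : 2 * Y.dim - (2 * X.dim - i) = i + 2 * r := by omega
    rw [e2, ← hL, ← comp_assoc C, hR i h1 h2] at e1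
    exact e1

lemma selfDual_nuT (ν : ℕ → C.A (Y.prod Y)) : IsSelfDual C (pr f (nuT X ν)) := by
  have key : ∀ i, i ≤ 2 * X.dim → i ≠ X.dim →
      tp C (sand f (nuT X ν i)) = sand f (nuT X ν (2 * X.dim - i)) := by
    intro i h1 h2
    rw [tp_sand]
    congr 1
    by_cases hi : i < X.dim
    · rw [nuT_low ν hi, nuT_high ν (by omega)]
      congr 2
      omega
    · rw [nuT_high ν hi, tp_tp, nuT_low ν (by omega)]
  intro i hi
  by_cases hin : i = X.dim
  · subst hin
    have e : 2 * X.dim - X.dim = X.dim := by omega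
    rw [e, pr_mid]
    have h1 : tp C (dg C X - ∑ j ∈ (Finset.range (2 * X.dim + 1)).erase X.dim,
        sand f (nuT X ν j)) = tp C (dg C X) - ∑ j ∈ (Finset.range (2 * X.dim + 1)).erase X.dim,
        tp C (sand f (nuT X ν j)) := by
      rw [tp, map_sub, map_sum]; rfl
    rw [h1, tp_dg]
    congr 1
    rw [Finset.sum_congr rfl fun j hj => key j (mem_er.1 hj).1 (mem_er.1 hj).2]
    refine Finset.sum_nbij' (fun j => 2 * X.dim - j) (fun j => 2 * X.dim - j) ?_ ?_ ?_ ?_ ?_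
    · intro j hj
      have := mem_er.1 hj
      exact mem_er.2 ⟨by omega, by omega⟩
    · intro j hj
      have := mem_er.1 hj
      exact mem_er.2 ⟨by omega, by omega⟩
    · intro j hj
      have := mem_er.1 hj
      omega
    · intro j hj
      have := mem_er.1 hj
      omega
    · intro j _
      rfl
  · rw [pr_of f _ hi hin, key i hi hin, pr_of f _ (by omega) (by omega)]

/-! ### Powers of `L` -/

lemma corPow_add (L : C.A (Y.prod Y)) (a b : ℕ) :
    corPow C L (a + b) = (C.comp (corPow C L a) (corPow C L b)) := by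
  induction b with
  | zero => exact (comp_dg C _).symm
  | succ b ih =>
    change (C.comp (corPow C L (a + b)) L) = (C.comp (corPow C L a) (C.comp (corPow C L b) L))
    rw [ih, comp_assoc C]

lemma corPow_mem {L : C.A (Y.prod Y)} (hL : L ∈ C.gr (Y.prod Y) ((Y.dim : ℤ) + 1)) (n : ℕ) :
    corPow C L n ∈ C.gr (Y.prod Y) ((Y.dim : ℤ) + n) := by
  induction n with
  | zero =>
    have h := dg_mem C Y
    have e : (Y.dim : ℤ) + (0 : ℕ) = Y.dim := by push_cast; ring
    rw [e]; exact h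
  | succ n ih =>
    have h := comp_mem C ih hL
    have e : (Y.dim : ℤ) + ((n : ℤ) + 1) = (Y.dim : ℤ) + (n + 1 : ℕ) := by push_cast; ring
    rw [e] at h
    exact h

lemma homog_pow {L : C.A (Y.prod Y)} (hom : ∀ n, (C.comp (π n) L) = (C.comp L (π (n + 2)))) (n j : ℕ) :
    (C.comp (π n) (corPow C L j)) = (C.comp (corPow C L j) (π (n + 2 * j))) := by
  induction j with
  | zero =>
    change (C.comp (π n) (dg C Y)) = (C.comp (dg C Y) (π (n + 0)))
    rw [comp_dg, dg_comp, add_zero]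
  | succ j ih =>
    change (C.comp (π n) (C.comp (corPow C L j) L)) = (C.comp (C.comp (corPow C L j) L) (π (n + 2 * (j + 1))))
    rw [← comp_assoc C, ih, comp_assoc C, hom, ← comp_assoc C]
    congr 2

lemma smul_comp' (q : ℚ) (Γ : C.A (X.prod Y)) (Δ : C.A (Y.prod Z)) :
    (C.comp (q • Γ) Δ) = q • (C.comp Γ Δ) := by
  simp only [← compL_apply, map_smul, LinearMap.smul_apply]

lemma comp_smul' (q : ℚ) (Γ : C.A (X.prod Y)) (Δ : C.A (Y.prod Z)) :
    (C.comp Γ (q • Δ)) = q • (C.comp Γ Δ) := by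
  simp only [← compL_apply, map_smul]

lemma pp_of_push {D : C.A Y} {c : ℚ} (hf : C.push f 1 = c • D ^ r) :
    pp C f = c • corPow C (C.mulCorr D) r := by
  rw [pp_eq, hf, mulCorr_pow, TheoryData.mulCorr, TheoryData.mulCorr, map_smul]

/-- The partial inverses in low degrees. -/
lemma exists_low {D : C.A Y} (hD : C.Deg 1 D) {c : ℚ} (hc : c ≠ 0)
    (hr : Y.dim = X.dim + r) (hf : C.push f 1 = c • D ^ r)
    (hM : MotivicLefschetz C (C.mulCorr D) π) (hidem : ∀ i, (C.comp (π i) (π i)) = π i)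
    (hdeg : ∀ i, C.Deg Y.dim (π i)) {i : ℕ} (hi : i ≤ X.dim) :
    ∃ μ : C.A (Y.prod Y), μ ∈ C.gr (Y.prod Y) ((Y.dim : ℤ) + -r) ∧ (C.comp (π (i + 2 * r)) μ) = μ ∧
      (C.comp μ (π i)) = μ ∧ (C.comp (C.comp (π i) (pp C f)) μ) = π i := by
  have hmem : C.mulCorr D ∈ C.gr (Y.prod Y) ((Y.dim : ℤ) + 1) := by
    have h := C.push_mem (Obj.lift (𝟙 Y) (𝟙 Y)) hD
    have e1 : (1 : ℤ) + 1 * (((Y.prod Y).dim : ℤ) - (Y.dim : ℤ)) = Y.dim + 1 := by
      rw [dim_prod]; push_cast; ring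
    rwa [e1] at h
  obtain ⟨g, hg, h1, -⟩ := hM.iso i (by omega)
  have hg' : g ∈ C.gr (Y.prod Y) ((Y.dim : ℤ) + ((i : ℤ) - Y.dim)) := by
    have e : (Y.dim : ℤ) + ((i : ℤ) - Y.dim) = i := by ring
    rw [e]; exact hg
  have hdeg' : ∀ j, π j ∈ C.gr (Y.prod Y) ((Y.dim : ℤ) + 0) := fun j => by
    rw [add_zero]; exact hdeg j
  set P : ℕ → C.A (Y.prod Y) := corPow C (C.mulCorr D) with hP
  have hhom : ∀ n j, (C.comp (π n) (P j)) = (C.comp (P j) (π (n + 2 * j))) := fun n j => homog_pow hM.homogeneous n j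
  refine ⟨c⁻¹ • (C.comp (C.comp (C.comp (π (i + 2 * r)) (P (X.dim - i))) g) (π i)), ?_, ?_, ?_, ?_⟩
  · apply Submodule.smul_mem
    have h2 := comp_mem C (comp_mem C (comp_mem C (hdeg' (i + 2 * r))
      (corPow_mem hmem (X.dim - i))) hg') (hdeg' i)
    have e : (Y.dim : ℤ) + (0 + ((X.dim - i : ℕ) : ℤ) + ((i : ℤ) - Y.dim) + 0) =
        (Y.dim : ℤ) + -r := by
      rw [Nat.cast_sub hi, hr]; push_cast; ring
    rw [e] at h2
    exact h2
  · rw [comp_smul', ← comp_assoc C, ← comp_assoc C, ← comp_assoc C, hidem]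
  · rw [smul_comp', comp_assoc C _ (π i), hidem]
  · rw [pp_of_push hf]
    simp only [comp_smul', smul_comp', smul_smul, inv_mul_cancel₀ hc, one_smul]
    have h2 : P (Y.dim - i) = (C.comp (P r) (P (X.dim - i))) := by
      rw [hP, ← corPow_add]
      congr 1
      omega
    have h3 : (C.comp (C.comp (π i) (P r)) (C.comp (C.comp (C.comp (π (i + 2 * r)) (P (X.dim - i))) g) (π i))) =
        (C.comp (C.comp (C.comp (C.comp (π i) (C.comp (P r) (π (i + 2 * r)))) (P (X.dim - i))) g) (π i)) := by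
      simp only [comp_assoc C]
    rw [h3, ← hhom, ← comp_assoc C (π i) (π i), hidem]
    rw [h2] at h1
    have h4 : (C.comp (C.comp (C.comp (π i) (P r)) (P (X.dim - i))) g) = π i := by
      rw [comp_assoc C (π i) (P r)]
      exact h1
    rw [h4, hidem]

/-- The partial inverses in high degrees. -/
lemma exists_high {D : C.A Y} (hD : C.Deg 1 D) {c : ℚ} (hc : c ≠ 0)
    (hr : Y.dim = X.dim + r) (hf : C.push f 1 = c • D ^ r)
    (hM : MotivicLefschetz C (C.mulCorr D) π) (hidem : ∀ i, (C.comp (π i) (π i)) = π i)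
    (hdeg : ∀ i, C.Deg Y.dim (π i)) {i : ℕ} (hi : X.dim ≤ i) (hi2 : i ≤ 2 * X.dim) :
    ∃ μ : C.A (Y.prod Y), μ ∈ C.gr (Y.prod Y) ((Y.dim : ℤ) + -r) ∧ (C.comp (π (i + 2 * r)) μ) = μ ∧
      (C.comp μ (π i)) = μ ∧ (C.comp μ (pp C f)) = π (i + 2 * r) ∧
      ∃ g : C.A (Y.prod Y), C.Deg (2 * X.dim - i : ℕ) g ∧
        (C.comp (C.comp (C.comp (π (i + 2 * r)) g) (π (2 * X.dim - i))) (corPow C (C.mulCorr D) (i + r - X.dim))) =
          π (i + 2 * r) := by
  have hmem : C.mulCorr D ∈ C.gr (Y.prod Y) ((Y.dim : ℤ) + 1) := by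
    have h := C.push_mem (Obj.lift (𝟙 Y) (𝟙 Y)) hD
    have e1 : (1 : ℤ) + 1 * (((Y.prod Y).dim : ℤ) - (Y.dim : ℤ)) = Y.dim + 1 := by
      rw [dim_prod]; push_cast; ring
    rwa [e1] at h
  obtain ⟨k, hk⟩ : ∃ k, k = 2 * X.dim - i := ⟨_, rfl⟩
  have hkn : k ≤ X.dim := by omega
  obtain ⟨g, hg, -, h1⟩ := hM.iso k (by omega)
  have hg' : g ∈ C.gr (Y.prod Y) ((Y.dim : ℤ) + ((k : ℤ) - Y.dim)) := by
    have e : (Y.dim : ℤ) + ((k : ℤ) - Y.dim) = k := by ring
    rw [e]; exact hg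
  have hdeg' : ∀ j, π j ∈ C.gr (Y.prod Y) ((Y.dim : ℤ) + 0) := fun j => by
    rw [add_zero]; exact hdeg j
  have ek : 2 * Y.dim - k = i + 2 * r := by omega
  rw [ek] at h1
  set P : ℕ → C.A (Y.prod Y) := corPow C (C.mulCorr D) with hP
  have hhom : ∀ n j, (C.comp (π n) (P j)) = (C.comp (P j) (π (n + 2 * j))) := fun n j => homog_pow hM.homogeneous n j
  have h2 : P (Y.dim - k) = (C.comp (P (i - X.dim)) (P r)) := by
    rw [hP, ← corPow_add]
    congr 1
    omega
  -- the graded inverse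
  have hg1 : (C.comp (C.comp (π (i + 2 * r)) (C.comp g (π k))) (P (Y.dim - k))) = π (i + 2 * r) := by
    have e1 : (C.comp (C.comp (π (i + 2 * r)) (C.comp g (π k))) (P (Y.dim - k))) =
        (C.comp (C.comp (π (i + 2 * r)) g) (C.comp (π k) (P (Y.dim - k)))) := by
      simp only [comp_assoc C]
    rw [e1, hhom, ← comp_assoc C, h1]
    have e2 : k + 2 * (Y.dim - k) = i + 2 * r := by omega
    rw [e2, hidem]
  refine ⟨c⁻¹ • (C.comp (C.comp (C.comp (π (i + 2 * r)) g) (P (i - X.dim))) (π i)), ?_, ?_, ?_, ?_, (C.comp g (π k)), ?_, ?_⟩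
  · apply Submodule.smul_mem
    have h2 := comp_mem C (comp_mem C (comp_mem C (hdeg' (i + 2 * r)) hg')
      (corPow_mem hmem (i - X.dim))) (hdeg' i)
    have e : (Y.dim : ℤ) + (0 + ((k : ℤ) - Y.dim) + ((i - X.dim : ℕ) : ℤ) + 0) =
        (Y.dim : ℤ) + -r := by
      have : (k : ℤ) = 2 * X.dim - i := by omega
      rw [Nat.cast_sub hi, this, hr]; push_cast; ring
    rw [e] at h2
    exact h2
  · rw [comp_smul', ← comp_assoc C, ← comp_assoc C, ← comp_assoc C, hidem]
  · rw [smul_comp', comp_assoc C _ (π i), hidem]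
  · rw [pp_of_push hf]
    simp only [comp_smul', smul_comp', smul_smul, mul_inv_cancel₀ hc, one_smul]
    have h3 : (C.comp (C.comp (C.comp (C.comp (π (i + 2 * r)) g) (P (i - X.dim))) (π i)) (P r)) =
        (C.comp (C.comp (C.comp (π (i + 2 * r)) g) (P (i - X.dim))) (C.comp (π i) (P r))) := by
      simp only [comp_assoc C]
    rw [h3, hhom, ← comp_assoc C, comp_assoc C (C.comp (π (i + 2 * r)) g), ← h2, h1, hidem]
  · have h4 := comp_mem C hg' (hdeg' k)
    have e : (Y.dim : ℤ) + ((k : ℤ) - Y.dim + 0) = (2 * X.dim - i : ℕ) := by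
      rw [← hk]; ring
    rw [e] at h4
    exact h4
  · rw [← hk]
    have e1 : (C.comp (C.comp (π (i + 2 * r)) (C.comp g (π k))) (π k)) = (C.comp (π (i + 2 * r)) (C.comp g (π k))) := by
      rw [comp_assoc C, comp_assoc C g, hidem]
    have e2 : i + r - X.dim = Y.dim - k := by omega
    rw [e1, e2]
    exact hg1

end chow

end Pool.Agent.Q73.LS
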