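import Pool.Agent.Q73.LS.Lef
import Pool.Agent.TH133.Murre

/-!
# Murre's conjectures (B) and (D) for Lefschetz sections and covers
-/

set_option autoImplicit false

open CategoryTheory AlgebraicGeometry

universe u v w

namespace Pool.Agent.Q73.LS

open Pool.Agent.H914 Pool.Agent.H914.VarClass Pool.Agent.H914.VarClass.Obj Pool.Agent.W492.BB
  Pool.Agent.W550.Corr Pool.Agent.TH133 Pool.Agent.Y107

set_option linter.unusedSectionVars false

variable {k : Type u} [Field k] {𝒱 : VarClass k}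

section weil

variable {C : TheoryData.{u, v, 0} 𝒱 ℚ} [hC : IsChowProj C] {K : Type w} [Field K]
  {H : WeilTheoryData.{u, v, w} C K} [hH : IsWeilProj H] {X Y Z : 𝒱.Obj}

include hC hH

lemma act_map0 (Γ : C.A (X.prod Y)) : C.act Γ 0 = 0 := C.act_map_zero Γ

/-- homologically trivial classes of codimension zero vanish -/
lemma eq_zero_of_deg0 {x : C.A X} (hx : C.Deg 0 x) (h0 : H.cl x = 0) : x = 0 := by
  obtain ⟨q, rfl⟩ := hC.gr_zero X x hx
  by_cases hq : q = 0
  · rw [hq, zero_smul]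
  · exfalso
    have h1 : H.cl ((q • (1 : C.A X)) * (q⁻¹ • (1 : C.A X))) = 1 := by
      rw [smul_mul_smul_comm, mul_inv_cancel₀ hq, one_smul, one_mul, map_one]
    rw [map_mul, h0, zero_mul] at h1
    exact hH.one_ne_zero X h1.symm

/-- action in low codimension -/
lemma low_B0 (hP : PicardFaithful H) {π : ℕ → C.A (Z.prod Z)} (hπ : IsCK H Z π) {i j : ℕ}
    (hj : j ≤ 1) (hij : 2 * j < i) {z : C.A Z} (hz : C.Deg j z) : C.act (π i) z = 0 := by
  have hmem : C.act (π i) z ∈ C.gr Z j := act_mem0 C (hπ.deg i) hz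
  have hcl : H.cl (C.act (π i) z) = 0 := by
    rw [cl_act H]
    exact hπ.act_ne i (2 * j) _ (by omega) (H.cl_mem hz)
  interval_cases j
  · exact eq_zero_of_deg0 (H := H) (by exact_mod_cast hmem) hcl
  · have h1 : C.act (π i) (C.act (π i) z) = 0 :=
      hP Z (π i) (hπ.deg i) (fun a ha => hπ.act_ne i 1 a (by omega) ha) _
        (by exact_mod_cast hmem) hcl
    rw [← C.act_comp, hπ.idem] at h1
    exact h1

lemma low_D (hP : PicardFaithful H) {π : ℕ → C.A (Z.prod Z)} (hπ : IsCK H Z π) {i j : ℕ}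
    (hj : j ≤ 1) (hij : 2 * j ≤ i) {z : C.A Z} (hz : C.Deg j z) (h0 : H.cl z = 0) :
    C.act (π i) z = 0 := by
  interval_cases j
  · rw [eq_zero_of_deg0 (H := H) (by exact_mod_cast hz) h0]
    exact C.act_map_zero _
  · exact hP Z (π i) (hπ.deg i) (fun a ha => hπ.act_ne i 1 a (by omega) ha) _
        (by exact_mod_cast hz) h0

variable {f : X ⟶ Y} {r : ℕ} {π ν : ℕ → C.A (Y.prod Y)}

omit hH in
lemma act_sand (f : X ⟶ Y) (μ : C.A (Y.prod Y)) (x : C.A X) :
    C.act (sand f μ) x = C.pull f (C.act μ (C.push f x)) := by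
  rw [sand, C.act_comp, C.act_comp, C.act_graph, C.act_cograph]

omit hH in
lemma push_mem' (hr : Y.dim = X.dim + r) {j : ℤ} {x : C.A X} (hx : x ∈ C.gr X j) :
    C.push f x ∈ C.gr Y (j + r) := by
  have h := C.push_mem f hx
  have e : j + 1 * ((Y.dim : ℤ) - X.dim) = j + r := by rw [hr]; push_cast; ring
  rwa [e] at h

/-- degrees below the middle -/
lemma act_low (hr : Y.dim = X.dim + r) (h : PartInv C f r π ν) {i : ℕ} (hi : i ≤ 2 * X.dim)
    (hin : i ≠ X.dim) {j : ℤ} {x : C.A X} (hx : x ∈ C.gr X j)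
    (hyp : ∀ y : C.A Y, y ∈ C.gr Y j → (H.cl x = 0 → H.cl y = 0) → C.act (π i) y = 0) :
    C.act (sand f (ν i)) x = 0 := by
  rw [act_sand, ← h.right i hi hin, C.act_comp, hyp, map_zero]
  · have h1 := act_mem' C (h.deg i hi hin) (push_mem' (f := f) hr hx)
    have e : j + (r : ℤ) + -r = j := by ring
    rwa [e] at h1
  · intro h0
    rw [cl_act H, H.cl_push, h0, map_zero]
    exact H.act_map_zero _

/-- degrees above the middle -/
lemma act_high (hr : Y.dim = X.dim + r) (h : PartInv C f r π ν) {D : C.A Y} {i : ℕ}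
    (hi : i ≤ 2 * X.dim) (hin : X.dim < i) {g : C.A (Y.prod Y)}
    (hg : C.Deg (2 * X.dim - i : ℕ) g)
    (hgi : C.comp (C.comp (C.comp (π (i + 2 * r)) g) (π (2 * X.dim - i)))
      (corPow C (C.mulCorr D) (i + r - X.dim)) = π (i + 2 * r))
    (hdeg : ∀ i, C.Deg Y.dim (π i)) {j : ℤ} {x : C.A X} (hx : x ∈ C.gr X j)
    (hyp : ∀ y : C.A Y, y ∈ C.gr Y (j + X.dim - i) → (H.cl x = 0 → H.cl y = 0) →
      C.act (π (2 * X.dim - i)) y = 0) :
    C.act (sand f (ν i)) x = 0 := by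
  rw [act_sand, ← h.left i hi (by omega), C.act_comp, ← hgi, C.act_comp, C.act_comp, C.act_comp,
    hyp, C.act_map_zero, C.act_map_zero, map_zero]
  · have h0 : g ∈ C.gr (Y.prod Y) ((Y.dim : ℤ) + ((2 * X.dim - i : ℕ) - (Y.dim : ℤ))) := by
      have e : (Y.dim : ℤ) + ((2 * X.dim - i : ℕ) - (Y.dim : ℤ)) = (2 * X.dim - i : ℕ) := by ring
      rw [e]; exact hg
    have h1 := act_mem' C h0 (act_mem0 C (hdeg (i + 2 * r)) (push_mem' (f := f) hr hx))
    have e : j + (r : ℤ) + ((2 * X.dim - i : ℕ) - (Y.dim : ℤ)) = j + X.dim - i := by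
      rw [hr, Nat.cast_sub hi]; push_cast; ring
    rwa [e] at h1
  · intro h0
    rw [cl_act H, cl_act H, H.cl_push, h0, map_zero]
    have h1 : ∀ (Z W : 𝒱.Obj) (Γ : H.A (Z.prod W)), H.act Γ (0 : H.A Z) = 0 :=
      fun Z W Γ => H.act_map_zero Γ
    rw [h1, h1]

/-- the middle projector on pull-backs -/
lemma act_mid (hr : Y.dim = X.dim + r) (hπ : IsCK H Y π) (h : PartInv C f r π ν)
    (hL : ∀ i, (C.comp (π i) (pp C f)) = (C.comp (pp C f) (π (i + 2 * r)))) {y : C.A Y}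
    (hy : ∀ i, X.dim ≤ i → C.act (π i) y = 0) :
    C.act (pr f ν X.dim) (C.pull f y) = 0 := by
  have h1 : ∀ i ∈ (Finset.range (2 * X.dim + 1)).erase X.dim,
      C.act (sand f (ν i)) (C.pull f y) = C.pull f (C.act (π i) y) := by
    intro i hi
    obtain ⟨hi1, hi2⟩ := mem_er.1 hi
    have e1 : C.act (sand f (ν i)) (C.pull f y) = C.pull f (C.act (C.comp (pp C f) (ν i)) y) := by
      rw [act_sand, C.act_comp, pp, C.act_comp, C.act_graph, C.act_cograph]
    rw [e1]
    rcases lt_or_gt_of_ne hi2 with h2 | h2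
    · rw [pp_inv_low h hL h2]
    · have e2 : (C.comp (pp C f) (ν i)) = (C.comp (π i) (C.comp (pp C f) (ν i))) := by
        rw [← comp_assoc C, hL, comp_assoc C, h.left i hi1 hi2]
      rw [e2, C.act_comp, hy i (by omega), C.act_map_zero]
  rw [pr_mid, C.act_sub, act_dg, act_sum, Finset.sum_congr rfl h1, ← map_sum, ← map_sub]
  have h2 : y = ∑ i ∈ Finset.range (2 * Y.dim + 1), C.act (π i) y := by
    rw [← act_sum, hπ.sum, act_dg]
  have h3 : ∑ i ∈ (Finset.range (2 * X.dim + 1)).erase X.dim, C.act (π i) y =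
      ∑ i ∈ Finset.range (2 * Y.dim + 1), C.act (π i) y := by
    apply Finset.sum_subset
    · intro i hi
      have := mem_er.1 hi
      exact Finset.mem_range.2 (by omega)
    · intro i _ hi
      by_cases h4 : X.dim ≤ i
      · exact hy i h4
      · exact absurd (mem_er.2 ⟨by omega, by omega⟩) hi
  rw [h3, ← h2, sub_self, map_zero]

/-- the data attached to motivic hard Lefschetz -/
lemma exists_partInv {D : C.A Y} (hD : C.Deg 1 D) {c : ℚ} (hc : c ≠ 0)
    (hr : Y.dim = X.dim + r) (hf : C.push f 1 = c • D ^ r) (hπ : IsCK H Y π)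
    (hM : MotivicLefschetz C (C.mulCorr D) π) :
    ∃ ν, PartInv C f r π ν ∧ (∀ i, (C.comp (π i) (pp C f)) = (C.comp (pp C f) (π (i + 2 * r)))) ∧
      ∀ i ≤ 2 * X.dim, X.dim < i → ∃ g : C.A (Y.prod Y), C.Deg (2 * X.dim - i : ℕ) g ∧
        (C.comp (C.comp (C.comp (π (i + 2 * r)) g) (π (2 * X.dim - i))) (corPow C (C.mulCorr D) (i + r - X.dim))) =
          π (i + 2 * r) := by
  classical
  have h1 : ∀ i, ∃ μ : C.A (Y.prod Y), (i ≤ 2 * X.dim → i ≠ X.dim →
      μ ∈ C.gr (Y.prod Y) ((Y.dim : ℤ) + -r) ∧ (C.comp (π (i + 2 * r)) μ) = μ ∧ (C.comp μ (π i)) = μ ∧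
      (i < X.dim → (C.comp (C.comp (π i) (pp C f)) μ) = π i) ∧ (X.dim < i → (C.comp μ (pp C f)) = π (i + 2 * r))) := by
    intro i
    by_cases hi : i ≤ 2 * X.dim
    swap
    · exact ⟨0, fun h => absurd h hi⟩
    rcases lt_or_ge i X.dim with h2 | h2
    · obtain ⟨μ, a, b, c, d⟩ := exists_low hD hc hr hf hM hπ.idem hπ.deg h2.le
      exact ⟨μ, fun _ _ => ⟨a, b, c, fun _ => d, fun h => absurd h (by omega)⟩⟩
    · obtain ⟨μ, a, b, c, d, -⟩ := exists_high hD hc hr hf hM hπ.idem hπ.deg h2 hi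
      exact ⟨μ, fun _ _ => ⟨a, b, c, fun h => absurd h (by omega), fun _ => d⟩⟩
  choose ν hν using h1
  refine ⟨ν, ⟨fun i a b => (hν i a b).1, fun i a b => (hν i a b).2.1, fun i a b => (hν i a b).2.2.1,
    fun i a => (hν i (by omega) (by omega)).2.2.2.1 a,
    fun i a b => (hν i a (by omega)).2.2.2.2 b⟩, fun i => ?_, fun i a b => ?_⟩
  · rw [pp_of_push hf, comp_smul', smul_comp', homog_pow hM.homogeneous]
  · obtain ⟨μ, -, -, -, -, g, h1, h2⟩ := exists_high hD hc hr hf hM hπ.idem hπ.deg b.le a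
    exact ⟨g, h1, h2⟩

/-- **(B).** -/
theorem murreB_section (hP : PicardFaithful H) {D : C.A Y} (hD : C.Deg 1 D) {c : ℚ} (hc : c ≠ 0)
    (hr : Y.dim = X.dim + r) (hf : C.push f 1 = c • D ^ r) (hO : OntoBelow H f)
    (hπ : IsCK H Y π) (hM : MotivicLefschetz C (C.mulCorr D) π)
    (hlow : ∀ i < X.dim, ∀ j : ℕ, i < j → ∀ y : C.A Y, C.Deg j y → C.act (π i) y = 0)
    (hmid : ∀ j : ℕ, 2 ≤ j → 2 * j < X.dim →
      (∀ x : C.A X, C.Deg j x → ∃ y : C.A Y, C.Deg j y ∧ C.pull f y = x) ∧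
      ∀ i, 2 * j < i → ∀ y : C.A Y, C.Deg j y → C.act (π i) y = 0) :
    ∃ p, IsCK H X p ∧ SatisfiesB C p ∧ PullIso C f π p := by
  obtain ⟨ν, hν, hL, hg⟩ := exists_partInv hD hc hr hf hπ hM
  have hp := isCK_pr hr hπ hO hν hL
  refine ⟨pr f ν, hp, fun j => ⟨?_, ?_⟩, pullIso_pr hr hν hL fun i j hij => hπ.orth i j hij⟩
  · ext x
    rw [hp.mem_ckFil]
    refine ⟨fun h => h.1, fun hx => ⟨hx, fun i hij => ?_⟩⟩
    by_cases hi : i ≤ 2 * X.dim
    swap
    · rw [pr_out f ν (by omega)]; exact C.act_zero x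
    rcases lt_trichotomy i X.dim with h1 | h1 | h1
    · rw [pr_of f ν hi (by omega)]
      refine act_low (H := H) hr hν hi (by omega) hx fun y hy _ => ?_
      by_cases hj : j ≤ 1
      · exact low_B0 hP hπ hj (by omega) hy
      · exact (hmid j (by omega) (by omega)).2 i (by omega) y hy
    · subst h1
      by_cases hj : j ≤ 1
      · exact low_B0 hP hp hj (by omega) hx
      · obtain ⟨a, b⟩ := hmid j (by omega) (by omega)
        obtain ⟨y, hy, rfl⟩ := a x hx
        exact act_mid hr hπ hν hL fun i hi => b i (by omega) y hy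
    · rw [pr_of f ν hi (by omega)]
      obtain ⟨g, hg1, hg2⟩ := hg i hi h1
      refine act_high (H := H) hr hν hi h1 hg1 hg2 hπ.deg hx fun y hy _ => ?_
      by_cases h0 : (j : ℤ) + X.dim - i < 0
      · rw [C.gr_neg Y _ h0, Submodule.mem_bot] at hy
        rw [hy]; exact C.act_map_zero _
      · obtain ⟨j', hj'⟩ := Int.eq_ofNat_of_zero_le (not_lt.1 h0)
        rw [hj'] at hy
        by_cases hj : j' ≤ 1
        · exact low_B0 hP hπ hj (by omega) hy
        · exact (hmid j' (by omega) (by omega)).2 _ (by omega) y hy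
  · rw [eq_bot_iff]
    intro x hx
    rw [hp.mem_ckFil] at hx
    rw [Submodule.mem_bot]
    by_cases hjn : X.dim < j
    · exact hC.gr_top X j x hx.1 (by exact_mod_cast hjn)
    have h1 : x = ∑ i ∈ Finset.range (2 * X.dim + 1), C.act (pr f ν i) x := by
      rw [← act_sum, hp.sum, act_dg]
    rw [h1]
    refine Finset.sum_eq_zero fun i hi => ?_
    have hi' : i ≤ 2 * X.dim := by have := Finset.mem_range.1 hi; omega
    by_cases hij : i < j
    · rw [pr_of f ν hi' (by omega)]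
      exact act_low (H := H) hr hν hi' (by omega) hx.1 fun y hy _ => hlow i (by omega) j hij y hy
    · exact hx.2 i (by omega)

/-- **(D).** -/
theorem murreD_section (hP : PicardFaithful H) {D : C.A Y} (hD : C.Deg 1 D) {c : ℚ} (hc : c ≠ 0)
    (hr : Y.dim = X.dim + r) (hf : C.push f 1 = c • D ^ r) (hO : OntoBelow H f)
    (hπ : IsCK H Y π) (hM : MotivicLefschetz C (C.mulCorr D) π)
    (hmid : ∀ j : ℕ, 2 ≤ j → 2 * j ≤ X.dim →
      (∀ x : C.A X, C.Deg j x → H.cl x = 0 →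
        ∃ y : C.A Y, C.Deg j y ∧ H.cl y = 0 ∧ C.pull f y = x) ∧
      ∀ i, 2 * j ≤ i → ∀ y : C.A Y, C.Deg j y → H.cl y = 0 → C.act (π i) y = 0) :
    ∃ p, IsCK H X p ∧ SatisfiesD H p ∧ PullIso C f π p := by
  obtain ⟨ν, hν, hL, hg⟩ := exists_partInv hD hc hr hf hπ hM
  have hp := isCK_pr hr hπ hO hν hL
  refine ⟨pr f ν, hp, fun j x => ⟨fun hx => ?_, fun hx => ?_⟩,
    pullIso_pr hr hν hL fun i j hij => hπ.orth i j hij⟩
  · rw [hp.mem_ckFil] at hx
    refine ⟨hx.1, ?_⟩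
    have h1 : C.act (pr f ν (2 * j)) x = 0 := hx.2 (2 * j) (by omega)
    have h2 := congrArg H.cl h1
    rw [cl_act H, map_zero] at h2
    rw [← h2]
    exact (hp.act_self (2 * j) _ (by
      have := H.cl_mem hx.1
      have e : ((2 * j : ℕ) : ℤ) = 2 * (j : ℤ) := by push_cast; ring
      rw [TheoryData.Deg, e]; exact this)).symm
  · obtain ⟨hx, h0⟩ := hx
    rw [hp.mem_ckFil]
    refine ⟨hx, fun i hij => ?_⟩
    by_cases hi : i ≤ 2 * X.dim
    swap
    · rw [pr_out f ν (by omega)]; exact C.act_zero x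
    rcases lt_trichotomy i X.dim with h1 | h1 | h1
    · rw [pr_of f ν hi (by omega)]
      refine act_low (H := H) hr hν hi (by omega) hx fun y hy hy0 => ?_
      by_cases hj : j ≤ 1
      · exact low_D hP hπ hj (by omega) hy (hy0 h0)
      · exact (hmid j (by omega) (by omega)).2 i (by omega) y hy (hy0 h0)
    · subst h1
      by_cases hj : j ≤ 1
      · exact low_D hP hp hj (by omega) hx h0
      · obtain ⟨a, b⟩ := hmid j (by omega) (by omega)
        obtain ⟨y, hy, hy0, rfl⟩ := a x hx h0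
        exact act_mid hr hπ hν hL fun i hi => b i (by omega) y hy hy0
    · rw [pr_of f ν hi (by omega)]
      obtain ⟨g, hg1, hg2⟩ := hg i hi h1
      refine act_high (H := H) hr hν hi h1 hg1 hg2 hπ.deg hx fun y hy hy0 => ?_
      by_cases hn : (j : ℤ) + X.dim - i < 0
      · rw [C.gr_neg Y _ hn, Submodule.mem_bot] at hy
        rw [hy]; exact C.act_map_zero _
      · obtain ⟨j', hj'⟩ := Int.eq_ofNat_of_zero_le (not_lt.1 hn)
        rw [hj'] at hy
        by_cases hj : j' ≤ 1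
        · exact low_D hP hπ hj (by omega) hy (hy0 h0)
        · exact (hmid j' (by omega) (by omega)).2 _ (by omega) y hy (hy0 h0)

end weil

end Pool.Agent.Q73.LS
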