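import Pool.Agent.Q73.LS.Lef

/-!
# Self-dual Chow-Kunneth decompositions: inheritance by sections and covers
-/

set_option autoImplicit false

open CategoryTheory AlgebraicGeometry

universe u v w

namespace Pool.Agent.Q73.LS

open Pool.Agent.H914 Pool.Agent.H914.VarClass Pool.Agent.H914.VarClass.Obj Pool.Agent.W492.BB
  Pool.Agent.W550.Corr Pool.Agent.TH133 Pool.Agent.Y107

set_option linter.unusedSectionVars false

variable {k : Type u} [Field k] {𝒱 : VarClass k}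

section weil

variable {C : TheoryData.{u, v, 0} 𝒱 ℚ} [hC : IsChowProj C] {K : Type w} [Field K]
  {H : WeilTheoryData.{u, v, w} C K} [hH : IsWeilProj H] {X Y : 𝒱.Obj}

include hC hH

variable {f : X ⟶ Y} {r : ℕ} {π ν : ℕ → C.A (Y.prod Y)}

theorem exists_selfDual_of_split (hr : Y.dim = X.dim + r) (hf : OntoBelow H f)
    (hπ : IsCK H Y π) (hsd : IsSelfDual C π) (hS : SplitBelow C f r π) :
    ∃ p, IsCK H X p ∧ IsSelfDual C p ∧ PullIso C f π p := by
  classical
  have hdeg' : ∀ j, π j ∈ C.gr (Y.prod Y) ((Y.dim : ℤ) + 0) := fun j => by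
    rw [add_zero]; exact hπ.deg j
  have h1 : ∀ i, ∃ μ : C.A (Y.prod Y), i < X.dim → μ ∈ C.gr (Y.prod Y) ((Y.dim : ℤ) + -r) ∧
      (C.comp (π (i + 2 * r)) μ) = μ ∧ (C.comp μ (π i)) = μ ∧ (C.comp (C.comp (π i) (pp C f)) μ) = π i := by
    intro i
    by_cases hi : i < X.dim
    · obtain ⟨μ, hμ, h2⟩ := hS.split i hi
      refine ⟨(C.comp (C.comp (π (i + 2 * r)) μ) (π i)), fun _ => ⟨?_, ?_, ?_, ?_⟩⟩
      · have h3 := comp_mem C (comp_mem C (hdeg' (i + 2 * r))
          (show μ ∈ C.gr (Y.prod Y) ((Y.dim : ℤ) + -r) by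
            rw [← sub_eq_add_neg]; exact hμ)) (hdeg' i)
        have e : (Y.dim : ℤ) + (0 + -(r : ℤ) + 0) = (Y.dim : ℤ) + -r := by ring
        rw [e] at h3
        exact h3
      · rw [← comp_assoc C, ← comp_assoc C, hπ.idem]
      · rw [comp_assoc C _ (π i), hπ.idem]
      · have e1 : (C.comp (C.comp (π i) (pp C f)) (C.comp (C.comp (π (i + 2 * r)) μ) (π i))) =
            (C.comp (C.comp (C.comp (π i) (C.comp (pp C f) (π (i + 2 * r)))) μ) (π i)) := by
          simp only [comp_assoc C]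
        have e2 : (C.comp (pp C f) (π (i + 2 * r))) = (C.comp (π i) (pp C f)) := (hS.homogeneous i).symm
        rw [e1, e2, ← comp_assoc C (π i) (π i), hπ.idem]
        have e3 : (C.comp (C.comp (π i) (pp C f)) μ) = π i := h2
        rw [e3, hπ.idem]
    · exact ⟨0, fun h => absurd h hi⟩
  choose ν hν using h1
  have hP : PartInv C f r π (nuT X ν) := partInv_nuT hr hsd (fun i => hS.homogeneous i)
    (fun i hi => (hν i hi).1) (fun i hi => (hν i hi).2.1) (fun i hi => (hν i hi).2.2.1)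
    (fun i hi => (hν i hi).2.2.2)
  exact ⟨pr f (nuT X ν), isCK_pr hr hπ hf hP fun i => hS.homogeneous i, selfDual_nuT ν,
    pullIso_pr hr hP (fun i => hS.homogeneous i) fun i j hij => hπ.orth i j hij⟩

theorem splitBelow_of_lefschetz {D : C.A Y} (hD : C.Deg 1 D) {c : ℚ} (hc : c ≠ 0)
    (hr : Y.dim = X.dim + r) (hf : C.push f 1 = c • D ^ r) (hπ : IsCK H Y π)
    (hM : MotivicLefschetz C (C.mulCorr D) π) : SplitBelow C f r π := by
  refine ⟨fun i => ?_, fun i hi => ?_⟩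
  · change (C.comp (π i) (pp C f)) = (C.comp (pp C f) (π (i + 2 * r)))
    rw [pp_of_push hf, comp_smul', smul_comp', homog_pow hM.homogeneous]
  · obtain ⟨μ, h1, -, -, h4⟩ := exists_low hD hc hr hf hM hπ.idem hπ.deg hi.le
    exact ⟨μ, by rw [TheoryData.Deg, sub_eq_add_neg]; exact h1, h4⟩

theorem splitBelow_of_cover {c : ℚ} (hc : c ≠ 0) (hr : Y.dim = X.dim)
    (hf : C.push f 1 = c • 1) (hπ : IsCK H Y π) : SplitBelow C f 0 π := by
  have h0 : pp C f = c • dg C Y := by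
    rw [pp_eq, hf, TheoryData.mulCorr, map_smul]; rfl
  refine ⟨fun i => ?_, fun i hi => ⟨c⁻¹ • dg C Y, ?_, ?_⟩⟩
  · change (C.comp (π i) (pp C f)) = (C.comp (pp C f) (π (i + 2 * 0)))
    rw [h0, comp_smul', smul_comp', comp_dg, dg_comp, mul_zero, add_zero]
  · have e : (Y.dim : ℤ) - ((0 : ℕ) : ℤ) = Y.dim := by push_cast; ring
    rw [TheoryData.Deg, e]
    exact Submodule.smul_mem _ _ (dg_mem C Y)
  · change (C.comp (C.comp (π i) (pp C f)) (c⁻¹ • dg C Y)) = π i
    rw [h0]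
    simp only [comp_smul', smul_comp', comp_dg, smul_smul, inv_mul_cancel₀ hc, one_smul]

/-- sections and covers with hard Lefschetz on the target -/
theorem exists_selfDual_of_lefschetz {D : C.A Y} (hD : C.Deg 1 D) {c : ℚ} (hc : c ≠ 0)
    (hr : Y.dim = X.dim + r) (hf : C.push f 1 = c • D ^ r) (hO : OntoBelow H f)
    (h : ∃ π, IsCK H Y π ∧ MotivicLefschetz C (C.mulCorr D) π) :
    ∃ π p, SelfDualLefschetz H (C.mulCorr D) π ∧ IsCK H X p ∧ IsSelfDual C p ∧
      PullIso C f π p := by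
  have hmem : C.mulCorr D ∈ C.gr (Y.prod Y) ((Y.dim : ℤ) + 1) := by
    have h := C.push_mem (Obj.lift (𝟙 Y) (𝟙 Y)) hD
    have e1 : (1 : ℤ) + 1 * (((Y.prod Y).dim : ℤ) - (Y.dim : ℤ)) = Y.dim + 1 := by
      rw [dim_prod]; push_cast; ring
    rwa [e1] at h
  have h' := h
  obtain ⟨π0, h1, h2⟩ := h
  have hHL := hardLefschetz_of_motivic h1 h2
  obtain ⟨h3, h4, h5⟩ := inSquare_iff_all (C := C) (X := Y) (H := H) hmem (tp_mulCorr D) hHL
  obtain ⟨π, a, b, d⟩ := h5.1 (h4.2 h')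
  obtain ⟨p, q1, q2, q3⟩ := exists_selfDual_of_split hr hO a b
    (splitBelow_of_lefschetz hD hc hr hf a d)
  exact ⟨π, p, ⟨a, b, d⟩, q1, q2, q3⟩

end weil

end Pool.Agent.Q73.LS
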